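import Mathlib

/-! Kronecker's criterion: a power series whose Hankel determinants vanish eventually is
a quotient of two polynomials. -/

set_option autoImplicit false

open Polynomial

namespace Pool.Agent.Lib.MP_7ab245_nt.House

variable {K : Type*} [Field K]

/-- Hankel matrix of a power series (starting with the coefficient of index one). -/
noncomputable def hankel (v : PowerSeries K) (m : ℕ) : Matrix (Fin m) (Fin m) K :=
  Matrix.of fun i j => PowerSeries.coeff ((i : ℕ) + j + 1) v

lemma kernel_poly (v : PowerSeries K) (m : ℕ) (h : (hankel v m).det = 0) :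
    ∃ a b : K[X], a ≠ 0 ∧ a.natDegree < m ∧ b.natDegree < m ∧
      ∃ w : PowerSeries K,
        (a : PowerSeries K) * v = (b : PowerSeries K) + PowerSeries.X ^ (2 * m) * w := by
  classical
  have hm : 0 < m := by
    rcases Nat.eq_zero_or_pos m with rfl | h'
    · simp at h
    · exact h'
  obtain ⟨A, hA0, hA⟩ := Matrix.exists_mulVec_eq_zero_iff.mpr h
  let a : K[X] := ∑ i : Fin m, monomial (m - 1 - (i : ℕ)) (A i)
  have hacoeff : ∀ i : Fin m, a.coeff (m - 1 - (i : ℕ)) = A i := by
    intro i
    simp only [a, finsetSum_coeff, coeff_monomial]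
    rw [Finset.sum_eq_single i]
    · simp
    · intro j _ hj
      rw [if_neg]
      intro h1
      apply hj
      apply Fin.ext
      have := i.2
      have := j.2
      omega
    · intro h'; exact absurd (Finset.mem_univ _) h'
  have hadeg : a.natDegree < m := by
    have : a.natDegree ≤ m - 1 := by
      apply natDegree_sum_le_of_forall_le
      intro i _
      exact (natDegree_monomial_le _).trans (by omega)
    omega
  have ha0 : a ≠ 0 := by
    intro h0
    apply hA0
    funext i
    have := hacoeff i
    rw [h0, coeff_zero] at this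
    exact this.symm
  have hbdeg : (PowerSeries.trunc m ((a : PowerSeries K) * v)).natDegree < m := by
    obtain ⟨m', rfl⟩ : ∃ m', m = m' + 1 := ⟨m - 1, by omega⟩
    exact PowerSeries.natDegree_trunc_lt _ _
  refine ⟨a, PowerSeries.trunc m ((a : PowerSeries K) * v), ha0, hadeg, hbdeg, ?_⟩
  have hdvd : PowerSeries.X ^ (2 * m) ∣ (a : PowerSeries K) * v -
      ((PowerSeries.trunc m ((a : PowerSeries K) * v) : K[X]) : PowerSeries K) := by
    rw [PowerSeries.X_pow_dvd_iff]
    intro n hn
    rw [map_sub, Polynomial.coeff_coe, PowerSeries.coeff_trunc]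
    split_ifs with hnm
    · rw [sub_self]
    · rw [sub_zero]
      obtain ⟨k, rfl⟩ := Nat.exists_eq_add_of_le (not_lt.mp hnm)
      have hk : k < m := by omega
      have hrow := congrFun hA ⟨k, hk⟩
      simp only [Matrix.mulVec, dotProduct, hankel, Matrix.of_apply, Pi.zero_apply] at hrow
      rw [← hrow]
      have hacoe : (a : PowerSeries K) = ∑ i : Fin m,
          ((monomial (m - 1 - (i : ℕ)) (A i) : K[X]) : PowerSeries K) := by
        simp only [a]
        rw [← Polynomial.coeToPowerSeries.ringHom_apply, map_sum]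
        rfl
      rw [hacoe, Finset.sum_mul, map_sum]
      refine Finset.sum_congr rfl fun i _ => ?_
      rw [Polynomial.coe_monomial, PowerSeries.coeff_mul]
      rw [Finset.sum_eq_single (m - 1 - (i : ℕ), k + i + 1)]
      · rw [PowerSeries.coeff_monomial_same]
        ring
      · intro b hb hne
        rw [PowerSeries.coeff_monomial, if_neg, zero_mul]
        intro h1
        apply hne
        rw [Finset.HasAntidiagonal.mem_antidiagonal] at hb
        have := i.2
        ext
        · exact h1
        · simp only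
          omega
      · intro h'
        exfalso
        apply h'
        rw [Finset.HasAntidiagonal.mem_antidiagonal]
        have := i.2
        simp only
        omega
  obtain ⟨w, hw⟩ := hdvd
  exact ⟨w, by rw [← hw]; ring⟩

lemma poly_eq_zero_of_X_pow_dvd (c : K[X]) (n : ℕ) (hd : c.natDegree < n)
    (h : PowerSeries.X ^ n ∣ (c : PowerSeries K)) : c = 0 := by
  rw [PowerSeries.X_pow_dvd_iff] at h
  ext k
  rw [coeff_zero]
  rcases lt_or_ge k n with hk | hk
  · have := h k hk
    rwa [Polynomial.coeff_coe] at this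
  · exact coeff_eq_zero_of_natDegree_lt (lt_of_lt_of_le hd hk)

theorem kronecker (v : PowerSeries K) (m0 : ℕ) (h : ∀ m, m0 ≤ m → (hankel v m).det = 0) :
    ∃ a b : K[X], a ≠ 0 ∧ (a : PowerSeries K) * v = (b : PowerSeries K) := by
  have hk : ∀ m, ∃ a b : K[X], m0 ≤ m → (a ≠ 0 ∧ a.natDegree < m ∧ b.natDegree < m ∧
      ∃ w : PowerSeries K,
        (a : PowerSeries K) * v = (b : PowerSeries K) + PowerSeries.X ^ (2 * m) * w) := by
    intro m
    by_cases hm : m0 ≤ m
    · obtain ⟨a, b, h1⟩ := kernel_poly v m (h m hm)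
      exact ⟨a, b, fun _ => h1⟩
    · exact ⟨0, 0, fun h' => absurd h' hm⟩
  choose a b hab using hk
  -- consecutive ones give the same fraction
  have hstep : ∀ m, m0 ≤ m → a (m + 1) * b m = a m * b (m + 1) := by
    intro m hm
    obtain ⟨h1, h2, h3, w, h4⟩ := hab m hm
    obtain ⟨h1', h2', h3', w', h4'⟩ := hab (m + 1) (by omega)
    rw [← sub_eq_zero]
    apply poly_eq_zero_of_X_pow_dvd _ (2 * m)
    · have e1 : (a (m + 1) * b m).natDegree < 2 * m := by
        refine lt_of_le_of_lt natDegree_mul_le ?_
        omega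
      have e2 : (a m * b (m + 1)).natDegree < 2 * m := by
        refine lt_of_le_of_lt natDegree_mul_le ?_
        omega
      exact lt_of_le_of_lt (natDegree_sub_le _ _) (max_lt e1 e2)
    · refine ⟨-((a (m + 1) : K[X]) : PowerSeries K) * w +
        ((a m : K[X]) : PowerSeries K) * PowerSeries.X ^ 2 * w', ?_⟩
      have e1 : ((b m : K[X]) : PowerSeries K) =
          ((a m : K[X]) : PowerSeries K) * v - PowerSeries.X ^ (2 * m) * w := by
        rw [h4]; ring
      have e2 : ((b (m + 1) : K[X]) : PowerSeries K) =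
          ((a (m + 1) : K[X]) : PowerSeries K) * v - PowerSeries.X ^ (2 * (m + 1)) * w' := by
        rw [h4']; ring
      rw [Polynomial.coe_sub, Polynomial.coe_mul, Polynomial.coe_mul, e1, e2]
      ring
  have hall : ∀ m, m0 ≤ m → a m * b m0 = a m0 * b m := by
    intro m hm
    induction m, hm using Nat.le_induction with
    | base => rfl
    | succ m hm ih =>
      have h1 := hstep m hm
      have h2 : a m ≠ 0 := (hab m hm).1
      apply mul_left_cancel₀ h2
      calc a m * (a (m + 1) * b m0) = a (m + 1) * (a m * b m0) := by ring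
        _ = a (m + 1) * (a m0 * b m) := by rw [ih]
        _ = a m0 * (a (m + 1) * b m) := by ring
        _ = a m0 * (a m * b (m + 1)) := by rw [h1]
        _ = a m * (a m0 * b (m + 1)) := by ring
  refine ⟨a m0, b m0, (hab m0 le_rfl).1, ?_⟩
  rw [← sub_eq_zero]
  by_contra hne
  set u : PowerSeries K := ((a m0 : K[X]) : PowerSeries K) * v - ((b m0 : K[X]) : PowerSeries K)
    with hu
  obtain ⟨r, hr⟩ : ∃ r : ℕ, PowerSeries.coeff r u ≠ 0 := by
    by_contra hcon
    push Not at hcon
    exact hne (PowerSeries.ext (by simpa using hcon))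
  -- take m large
  set m := m0 + r + 1 with hm
  obtain ⟨h1, h2, h3, w, h4⟩ := hab m (by omega)
  have h5 : ((a m : K[X]) : PowerSeries K) * u =
      PowerSeries.X ^ (2 * m) * (((a m0 : K[X]) : PowerSeries K) * w) := by
    have e1 := congrArg (fun c : K[X] => (c : PowerSeries K)) (hall m (by omega))
    simp only [Polynomial.coe_mul] at e1
    rw [hu]
    calc ((a m : K[X]) : PowerSeries K) * (((a m0 : K[X]) : PowerSeries K) * v -
          ((b m0 : K[X]) : PowerSeries K))
        = ((a m0 : K[X]) : PowerSeries K) * (((a m : K[X]) : PowerSeries K) * v) -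
          ((a m : K[X]) : PowerSeries K) * ((b m0 : K[X]) : PowerSeries K) := by ring
      _ = _ := by rw [h4, e1]; ring
  have ham0 : ((a m : K[X]) : PowerSeries K) ≠ 0 := by
    rw [Ne, Polynomial.coe_eq_zero_iff]; exact h1
  have hdvd : PowerSeries.X ^ (2 * m) ∣ ((a m : K[X]) : PowerSeries K) * u := ⟨_, h5⟩
  have ho1 : ((2 * m : ℕ) : ℕ∞) ≤ (((a m : K[X]) : PowerSeries K) * u).order := by
    apply PowerSeries.le_order
    intro i hi
    rw [PowerSeries.X_pow_dvd_iff] at hdvd
    exact hdvd i (by exact_mod_cast hi)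
  rw [PowerSeries.order_mul] at ho1
  have ho2 : ((a m : K[X]) : PowerSeries K).order ≤ ((m - 1 : ℕ) : ℕ∞) := by
    have hlc : PowerSeries.coeff (a m).natDegree ((a m : K[X]) : PowerSeries K) ≠ 0 := by
      rw [Polynomial.coeff_coe]
      exact leadingCoeff_ne_zero.mpr h1
    refine (PowerSeries.order_le _ hlc).trans ?_
    exact_mod_cast (by omega : (a m).natDegree ≤ m - 1)
  have ho3 : u.order ≤ ((r : ℕ) : ℕ∞) := PowerSeries.order_le _ hr
  have ho4 : ((2 * m : ℕ) : ℕ∞) ≤ (((m - 1) + r : ℕ) : ℕ∞) := by
    refine ho1.trans ?_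
    rw [Nat.cast_add]
    exact add_le_add ho2 ho3
  have ho5 : 2 * m ≤ (m - 1) + r := by exact_mod_cast ho4
  omega

end Pool.Agent.Lib.MP_7ab245_nt.House
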