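import Mathlib
import Pool.Agent.Lib.MP_7ab245_nt.House.Kron

/-! Upper bound for Hankel determinants by means of monic polynomials. -/

set_option autoImplicit false

open Polynomial

namespace Pool.Agent.Lib.MP_7ab245_nt.House

/-- the functional `X^k ↦ v_{k+1}` -/
noncomputable def functional (v : PowerSeries ℂ) : ℂ[X] →ₗ[ℂ] ℂ :=
  (Polynomial.basisMonomials ℂ).constr ℂ (fun k => PowerSeries.coeff (k + 1) v)

lemma functional_monomial (v : PowerSeries ℂ) (k : ℕ) (c : ℂ) :
    functional v (monomial k c) = c * PowerSeries.coeff (k + 1) v := by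
  have h1 : functional v (monomial k 1) = PowerSeries.coeff (k + 1) v := by
    have := Module.Basis.constr_basis (Polynomial.basisMonomials ℂ) ℂ
      (fun k => PowerSeries.coeff (k + 1) v) k
    rw [Polynomial.coe_basisMonomials] at this
    exact this
  have h2 : (monomial k c : ℂ[X]) = c • monomial k 1 := by
    rw [smul_monomial]; simp
  rw [h2, map_smul, h1, smul_eq_mul]

lemma functional_mul (v : PowerSeries ℂ) (m : ℕ) (p q : ℂ[X]) (hp : p.natDegree < m)
    (hq : q.natDegree < m) :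
    functional v (p * q) = ∑ a : Fin m, ∑ b : Fin m,
      p.coeff a * (PowerSeries.coeff ((a : ℕ) + b + 1) v) * q.coeff b := by
  conv_lhs => rw [p.as_sum_range' m hp, q.as_sum_range' m hq]
  rw [Finset.sum_mul_sum, map_sum, Finset.sum_range]
  refine Finset.sum_congr rfl fun a _ => ?_
  rw [map_sum, Finset.sum_range]
  refine Finset.sum_congr rfl fun b _ => ?_
  rw [monomial_mul_monomial, functional_monomial]
  ring

lemma det_hankel_eq (v : PowerSeries ℂ) (m : ℕ) (P : ℕ → ℂ[X]) (hP : ∀ i, (P i).Monic)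
    (hd : ∀ i, (P i).natDegree = i) :
    (hankel v m).det = (Matrix.of fun i j : Fin m => functional v (P i * P j)).det := by
  set T : Matrix (Fin m) (Fin m) ℂ := Matrix.of fun i a => (P i).coeff a with hT
  have h1 : (Matrix.of fun i j : Fin m => functional v (P i * P j)) =
      T * hankel v m * T.transpose := by
    ext i j
    rw [Matrix.of_apply, functional_mul v m (P i) (P j) (by rw [hd]; exact i.2)
      (by rw [hd]; exact j.2), Matrix.mul_apply, Finset.sum_comm]
    refine Finset.sum_congr rfl fun b _ => ?_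
    rw [Matrix.mul_apply, Finset.sum_mul]
    refine Finset.sum_congr rfl fun a _ => ?_
    rfl
  have hTdet : T.det = 1 := by
    rw [Matrix.det_of_isLowerTriangular]
    · apply Finset.prod_eq_one
      intro i _
      rw [hT, Matrix.of_apply]
      have := hP i
      rw [Monic, leadingCoeff, hd] at this
      exact this
    · intro i j hij
      rw [hT, Matrix.of_apply]
      apply coeff_eq_zero_of_natDegree_lt
      rw [hd]
      simpa using hij
  rw [h1, Matrix.det_mul, Matrix.det_mul, Matrix.det_transpose, hTdet, one_mul, mul_one]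

lemma norm_det_hankel_le (v : PowerSeries ℂ) (m : ℕ) (P : ℕ → ℂ[X]) (hP : ∀ i, (P i).Monic)
    (hd : ∀ i, (P i).natDegree = i) (C : ℝ) (r : ℕ → ℝ) (hr : ∀ i, 0 < r i)
    (hb : ∀ i j, ‖functional v (P i * P j)‖ ≤ C * (r i * r j)) :
    ‖(hankel v m).det‖ ≤ m.factorial * C ^ m * (∏ i ∈ Finset.range m, r i) ^ 2 := by
  rw [det_hankel_eq v m P hP hd]
  set B : Matrix (Fin m) (Fin m) ℂ :=
    Matrix.of fun i j : Fin m => functional v (P i * P j) / ((r i : ℂ) * (r j : ℂ)) with hB
  have hr0 : ∀ i, (r i : ℂ) ≠ 0 := fun i => by exact_mod_cast (hr i).ne'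
  have h1 : (Matrix.of fun i j : Fin m => functional v (P i * P j)) =
      Matrix.diagonal (fun i : Fin m => (r i : ℂ)) * B *
        Matrix.diagonal (fun i : Fin m => (r i : ℂ)) := by
    ext i j
    rw [Matrix.mul_diagonal, Matrix.diagonal_mul, hB, Matrix.of_apply, Matrix.of_apply]
    have := hr0 i
    have := hr0 j
    field_simp
  rw [h1, Matrix.det_mul, Matrix.det_mul, Matrix.det_diagonal]
  have hBle : ‖B.det‖ ≤ m.factorial * C ^ m := by
    have h2 := Matrix.det_le (A := B) (abv := NormedField.toAbsoluteValue ℂ) (x := C) (by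
      intro i j
      change ‖B i j‖ ≤ C
      rw [hB, Matrix.of_apply, norm_div, norm_mul, Complex.norm_real, Complex.norm_real,
        Real.norm_of_nonneg (hr _).le, Real.norm_of_nonneg (hr _).le,
        div_le_iff₀ (mul_pos (hr _) (hr _))]
      exact hb i j)
    rw [Fintype.card_fin] at h2
    rw [← nsmul_eq_mul]
    exact h2
  rw [norm_mul, norm_mul, norm_prod]
  have h3 : ∏ i : Fin m, ‖(r i : ℂ)‖ = ∏ i ∈ Finset.range m, r i := by
    rw [Finset.prod_range]
    refine Finset.prod_congr rfl fun i _ => ?_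
    rw [Complex.norm_real, Real.norm_of_nonneg (hr _).le]
  rw [h3]
  have h4 : 0 ≤ ∏ i ∈ Finset.range m, r i := Finset.prod_nonneg fun i _ => (hr i).le
  calc (∏ i ∈ Finset.range m, r i) * ‖B.det‖ * (∏ i ∈ Finset.range m, r i)
      ≤ (∏ i ∈ Finset.range m, r i) * (m.factorial * C ^ m) * (∏ i ∈ Finset.range m, r i) := by
        gcongr
    _ = _ := by ring

/-- If in addition `r i ≤ D (i+1) q^i` with `q < 1`, the determinants tend to zero. -/
lemma eventually_lt_one (C D q : ℝ) (hC : 0 ≤ C) (hD : 0 ≤ D) (hq0 : 0 < q) (hq : q < 1) :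
    ∃ m0 : ℕ, ∀ m, m0 ≤ m →
      m.factorial * C ^ m * (∏ i ∈ Finset.range m, (D * (i + 1) * q ^ i)) ^ 2 < 1 := by
  -- the product
  have hprod : ∀ m : ℕ, (∏ i ∈ Finset.range m, (D * ((i : ℝ) + 1) * q ^ i)) =
      D ^ m * m.factorial * q ^ (∑ i ∈ Finset.range m, i) := by
    intro m
    rw [Finset.prod_mul_distrib, Finset.prod_mul_distrib, Finset.prod_const, Finset.card_range,
      Finset.prod_pow_eq_pow_sum]
    congr 2
    have := Finset.prod_range_add_one_eq_factorial m
    rw [← this]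
    push_cast
    rfl
  have hlim := tendsto_pow_const_mul_const_pow_of_abs_lt_one 3 (r := q)
    (by rw [abs_of_pos hq0]; exact hq)
  have hlim2 : Filter.Tendsto (fun n : ℕ => ((n : ℝ) ^ 3 * q ^ n) * (C * D ^ 2 * q⁻¹))
      Filter.atTop (nhds 0) := by
    have := hlim.mul_const (C * D ^ 2 * q⁻¹)
    rwa [zero_mul] at this
  have hev := (hlim2.eventually (gt_mem_nhds (by norm_num : (0 : ℝ) < 1))).and
    (Filter.eventually_ge_atTop 1)
  obtain ⟨m0, hm0⟩ := Filter.eventually_atTop.mp hev
  refine ⟨m0, fun m hm => ?_⟩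
  obtain ⟨h1, h2⟩ := hm0 m hm
  rw [hprod]
  have hsum : 2 * (∑ i ∈ Finset.range m, i) = m * (m - 1) := by
    have := Finset.sum_range_id_mul_two m
    rw [mul_comm]; exact this
  have hfac : (m.factorial : ℝ) ≤ (m : ℝ) ^ m := by
    exact_mod_cast Nat.factorial_le_pow m
  have h3 : m.factorial * C ^ m * (D ^ m * m.factorial * q ^ (∑ i ∈ Finset.range m, i)) ^ 2 =
      (m.factorial : ℝ) ^ 3 * (C * D ^ 2) ^ m * q ^ (m * (m - 1)) := by
    rw [← hsum]; ring
  rw [h3]
  have h4 : (m.factorial : ℝ) ^ 3 * (C * D ^ 2) ^ m * q ^ (m * (m - 1)) ≤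
      (((m : ℝ) ^ 3 * q ^ m) * (C * D ^ 2 * q⁻¹)) ^ m := by
    calc (m.factorial : ℝ) ^ 3 * (C * D ^ 2) ^ m * q ^ (m * (m - 1))
        ≤ ((m : ℝ) ^ m) ^ 3 * (C * D ^ 2) ^ m * q ^ (m * (m - 1)) := by gcongr
      _ = ((m : ℝ) ^ 3 * (C * D ^ 2) * q ^ (m - 1)) ^ m := by
          have e1 : ((m : ℝ) ^ m) ^ 3 = ((m : ℝ) ^ 3) ^ m := by
            rw [← pow_mul, ← pow_mul, mul_comm]
          have e2 : q ^ (m * (m - 1)) = (q ^ (m - 1)) ^ m := by
            rw [← pow_mul, mul_comm]
          rw [e1, e2, ← mul_pow, ← mul_pow]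
      _ = _ := by
          congr 1
          have : q ^ m = q ^ (m - 1) * q := by
            rw [← pow_succ]; congr 1; omega
          rw [this]
          field_simp
  refine lt_of_le_of_lt h4 ?_
  apply pow_lt_one₀ _ h1 (by omega)
  positivity

end Pool.Agent.Lib.MP_7ab245_nt.House
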