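import Mathlib

/-! A bound for contour integrals of `p * φ`, `φ` holomorphic off a compact set `K₀`, in terms of
the size of `p` near `K₀`. -/

set_option autoImplicit false

open Set Metric Complex MeasureTheory

open scoped Topology Real

namespace Pool.Agent.Lib.MP_7ab245_nt.House

lemma exists_cutoff (K0 U : Set ℂ) (hK : IsClosed K0) (hU : IsOpen U) (hKU : K0 ⊆ U) :
    ∃ (χ : ℂ → ℝ) (V : Set ℂ), ContDiff ℝ 1 χ ∧ IsOpen V ∧ K0 ⊆ V ∧ (∀ z ∈ V, χ z = 0) ∧
      (∀ z, z ∉ U → χ z = 1 ∧ fderiv ℝ χ z = 0) := by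
  have hd : Disjoint K0 Uᶜ := by
    rw [Set.disjoint_compl_right_iff_subset]; exact hKU
  obtain ⟨f, h0, h1, -⟩ := exists_contMDiffMap_zero_one_nhds_of_isClosed
    (modelWithCornersSelf ℝ ℂ) (n := 1) hK hU.isClosed_compl hd
  refine ⟨f, interior {z | f z = 0}, ?_, isOpen_interior, ?_, ?_, ?_⟩
  · exact f.contMDiff.contDiff
  · rw [subset_interior_iff_mem_nhdsSet]
    exact h0
  · intro z hz
    have h2 : z ∈ {z | f z = 0} := interior_subset hz
    exact h2
  · intro z hz
    have h2 : ∀ᶠ x in 𝓝 z, f x = 1 := by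
      have := (mem_nhdsSet_iff_forall.mp h1) z hz
      exact this
    refine ⟨h2.self_of_nhds, ?_⟩
    have h3 : (f : ℂ → ℝ) =ᶠ[𝓝 z] fun _ => (1 : ℝ) := h2
    rw [h3.fderiv_eq]
    simp

/-- The key bound. -/
theorem circle_integral_bound (φ : ℂ → ℂ) (K0 U : Set ℂ) (hK : IsClosed K0) (h0 : (0 : ℂ) ∈ K0)
    (hU : IsOpen U) (hKU : K0 ⊆ U) (hφ : ∀ z ∉ K0, DifferentiableAt ℂ φ z) (R : ℝ)
    (hR : U ⊆ ball 0 R) :
    ∃ C : ℝ, 0 ≤ C ∧ ∀ p : ℂ → ℂ, Differentiable ℂ p → ∀ M : ℝ, 0 ≤ M → (∀ z ∈ U, ‖p z‖ ≤ M) →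
      ‖∮ z in C(0, R), p z * φ z‖ ≤ C * M := by
  obtain ⟨χ, V, hχ, hV, hKV, hχV, hχU⟩ := exists_cutoff K0 U hK hU hKU
  have hRpos : 0 < R := by
    have := hR (hKU h0)
    rw [mem_ball, dist_self] at this
    exact this
  -- a small disc inside V
  obtain ⟨r, hrpos, hrV⟩ : ∃ r > 0, ball (0 : ℂ) r ⊆ V :=
    Metric.isOpen_iff.mp hV 0 (hKV h0)
  set r' := min (r / 2) (R / 2) with hr'
  have hr'pos : 0 < r' := by positivity
  have hr'R : r' < R := lt_of_le_of_lt (min_le_right _ _) (by linarith)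
  -- bounds
  obtain ⟨Bφ, hBφ⟩ : ∃ B, ∀ z ∈ closure U \ V, ‖φ z‖ ≤ B := by
    have hc : IsCompact (closure U \ V) := by
      have : IsCompact (closure U) :=
        (isBounded_ball.subset hR).isCompact_closure
      exact this.diff hV
    have hcont : ContinuousOn φ (closure U \ V) := fun z hz =>
      (hφ z (fun h => hz.2 (hKV h))).continuousAt.continuousWithinAt
    exact hc.exists_bound_of_continuousOn hcont
  obtain ⟨Bχ, hBχ⟩ : ∃ B, ∀ z ∈ closedBall (0 : ℂ) R, ‖fderiv ℝ χ z‖ ≤ B := by
    have hcont : Continuous (fderiv ℝ χ) := hχ.continuous_fderiv (by norm_num)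
    exact (isCompact_closedBall _ _).exists_bound_of_continuousOn hcont.continuousOn
  have hBχ0 : 0 ≤ Bχ := (norm_nonneg _).trans (hBχ 0 (mem_closedBall_self hRpos.le))
  set Bφ' := max Bφ 0 with hBφ'
  set C1 : ℝ := R * R * Bφ' * (2 * Bχ) with hC1
  have hC1nn : 0 ≤ C1 := by
    have : 0 ≤ Bφ' := le_max_right _ _
    positivity
  refine ⟨(Real.log R - Real.log r') * (2 * π) * C1, ?_, ?_⟩
  · have : Real.log r' ≤ Real.log R := Real.log_le_log hr'pos hr'R.le
    have h2 : 0 ≤ Real.log R - Real.log r' := by linarith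
    positivity
  intro p hp M hM hpM
  -- the function u
  set u : ℂ → ℂ := fun z => (χ z : ℂ) * (p z * φ z) with hu
  have hudiff : ∀ z, DifferentiableAt ℝ u z := by
    intro z
    by_cases hz : z ∈ V
    · have : u =ᶠ[𝓝 z] fun _ => (0 : ℂ) := by
        filter_upwards [hV.mem_nhds hz] with y hy
        simp [hu, hχV y hy]
      exact (differentiableAt_const _).congr_of_eventuallyEq this
    · have hzK : z ∉ K0 := fun h => hz (hKV h)
      have h1 : DifferentiableAt ℝ (fun z => (χ z : ℂ)) z :=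
        Complex.ofRealCLM.differentiableAt.comp z (hχ.differentiable (by norm_num) z)
      have h2 : DifferentiableAt ℝ (fun z => p z * φ z) z :=
        ((hp z).mul (hφ z hzK)).restrictScalars ℝ
      exact h1.mul h2
  -- dbar formula
  have hdbar : ∀ z c : ℂ, z ∈ closedBall (0 : ℂ) R →
      ‖I * fderiv ℝ u z c - fderiv ℝ u z (c * I)‖ ≤ M * Bφ' * (2 * Bχ) * ‖c‖ := by
    intro z c hzR
    have hnn : 0 ≤ M * Bφ' * (2 * Bχ) * ‖c‖ := by
      have : 0 ≤ Bφ' := le_max_right _ _
      positivity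
    by_cases hz : z ∈ V
    · have : u =ᶠ[𝓝 z] fun _ => (0 : ℂ) := by
        filter_upwards [hV.mem_nhds hz] with y hy
        simp [hu, hχV y hy]
      rw [this.fderiv_eq]
      simpa using hnn
    · have hzK : z ∉ K0 := fun h => hz (hKV h)
      have h1 : HasFDerivAt (fun z => (χ z : ℂ)) (Complex.ofRealCLM.comp (fderiv ℝ χ z)) z :=
        Complex.ofRealCLM.hasFDerivAt.comp z (hχ.differentiable (by norm_num) z).hasFDerivAt
      have h2 : HasFDerivAt (fun z => p z * φ z)
          ((fderiv ℂ (fun z => p z * φ z) z).restrictScalars ℝ) z :=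
        ((hp z).mul (hφ z hzK)).hasFDerivAt.restrictScalars ℝ
      have h3 := h1.mul h2
      have h4 : fderiv ℝ u z = _ := h3.fderiv
      rw [h4]
      simp only [add_apply, smul_apply,
        ContinuousLinearMap.coe_restrictScalars', ContinuousLinearMap.comp_apply,
        Complex.ofRealCLM_apply, smul_eq_mul]
      set A := fderiv ℂ (fun z => p z * φ z) z with hA
      have hAI : A (c * I) = A c * I := by
        rw [mul_comm c I, ← smul_eq_mul, map_smul, smul_eq_mul, mul_comm]
      rw [hAI]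
      have h5 : I * ((χ z : ℂ) * A c + p z * φ z * ((fderiv ℝ χ z) c : ℂ)) -
          ((χ z : ℂ) * (A c * I) + p z * φ z * ((fderiv ℝ χ z) (c * I) : ℂ)) =
          (p z * φ z) * (I * ((fderiv ℝ χ z) c : ℂ) - ((fderiv ℝ χ z) (c * I) : ℂ)) := by ring
      rw [h5]
      by_cases hzU : z ∈ U
      · rw [norm_mul, norm_mul]
        have e1 : ‖p z‖ ≤ M := hpM z hzU
        have e2 : ‖φ z‖ ≤ Bφ' := (hBφ z ⟨subset_closure hzU, hz⟩).trans (le_max_left _ _)
        have e3 : ‖I * ((fderiv ℝ χ z) c : ℂ) - ((fderiv ℝ χ z) (c * I) : ℂ)‖ ≤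
            2 * Bχ * ‖c‖ := by
          refine (norm_sub_le _ _).trans ?_
          rw [norm_mul, Complex.norm_I, one_mul, Complex.norm_real, Complex.norm_real]
          have f1 : ‖(fderiv ℝ χ z) c‖ ≤ Bχ * ‖c‖ :=
            ((fderiv ℝ χ z).le_opNorm c).trans (by gcongr; exact hBχ z hzR)
          have f2 : ‖(fderiv ℝ χ z) (c * I)‖ ≤ Bχ * ‖c‖ := by
            refine ((fderiv ℝ χ z).le_opNorm (c * I)).trans ?_
            rw [norm_mul, Complex.norm_I, mul_one]
            gcongr
            exact hBχ z hzR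
          linarith
        calc ‖p z‖ * ‖φ z‖ * ‖I * ((fderiv ℝ χ z) c : ℂ) - ((fderiv ℝ χ z) (c * I) : ℂ)‖
            ≤ M * Bφ' * (2 * Bχ * ‖c‖) := by
              have : 0 ≤ Bφ' := le_max_right _ _
              gcongr
          _ = _ := by ring
      · rw [(hχU z hzU).2]
        simpa using hnn
  -- pull back by exp
  set F : ℂ → ℂ := fun w => u (exp w) * exp w with hF
  have hFd : ∀ w, HasFDerivAt F
      (u (exp w) • ((ContinuousLinearMap.toSpanSingleton ℂ (exp w)).restrictScalars ℝ) +
        exp w • ((fderiv ℝ u (exp w)).comp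
          ((ContinuousLinearMap.toSpanSingleton ℂ (exp w)).restrictScalars ℝ))) w := by
    intro w
    have h1 : HasFDerivAt Complex.exp
        ((ContinuousLinearMap.toSpanSingleton ℂ (exp w)).restrictScalars ℝ) w :=
      (Complex.hasDerivAt_exp w).hasFDerivAt.restrictScalars ℝ
    have h2 : HasFDerivAt (fun w => u (exp w)) ((fderiv ℝ u (exp w)).comp
        ((ContinuousLinearMap.toSpanSingleton ℂ (exp w)).restrictScalars ℝ)) w :=
      (hudiff (exp w)).hasFDerivAt.comp w h1
    exact h2.mul h1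
  have hFdb : ∀ w, I • fderiv ℝ F w 1 - fderiv ℝ F w I =
      exp w * (I * fderiv ℝ u (exp w) (exp w) - fderiv ℝ u (exp w) (exp w * I)) := by
    intro w
    rw [(hFd w).fderiv]
    simp only [add_apply, smul_apply, ContinuousLinearMap.coe_restrictScalars',
      ContinuousLinearMap.comp_apply, ContinuousLinearMap.toSpanSingleton_apply, smul_eq_mul,
      one_mul]
    rw [mul_comm I (exp w)]
    ring
  set z0 : ℂ := (Real.log r' : ℂ) with hz0
  set w0 : ℂ := (Real.log R : ℂ) + (2 * π : ℝ) * I with hw0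
  have hz0re : z0.re = Real.log r' := by simp [hz0]
  have hz0im : z0.im = 0 := by simp [hz0]
  have hw0re : w0.re = Real.log R := by simp [hw0]
  have hw0im : w0.im = 2 * π := by simp [hw0]
  have hlog : Real.log r' ≤ Real.log R := Real.log_le_log hr'pos hr'R.le
  have hnormexp : ∀ x y : ℝ, ‖exp (x + y * I)‖ = Real.exp x := by
    intro x y
    rw [Complex.norm_exp]
    simp
  have hbd : ∀ x ∈ Icc (Real.log r') (Real.log R), ∀ y : ℝ,
      ‖I • fderiv ℝ F (x + y * I) 1 - fderiv ℝ F (x + y * I) I‖ ≤ C1 * M := by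
    intro x hx y
    rw [hFdb, norm_mul, hnormexp]
    have hxR : Real.exp x ≤ R := by
      rw [← Real.exp_log hRpos]
      exact Real.exp_le_exp.mpr hx.2
    have h1 := hdbar (exp (x + y * I)) (exp (x + y * I)) (by
      rw [mem_closedBall, dist_zero_right, hnormexp]; exact hxR)
    rw [hnormexp] at h1
    have hex : 0 ≤ Real.exp x := (Real.exp_pos x).le
    have hBφ0 : 0 ≤ Bφ' := le_max_right _ _
    calc Real.exp x * _ ≤ R * (M * Bφ' * (2 * Bχ) * R) := by
          apply mul_le_mul hxR _ (norm_nonneg _) hRpos.le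
          refine h1.trans ?_
          gcongr
      _ = C1 * M := by rw [hC1]; ring
  have hInt : IntegrableOn (fun z => I • fderiv ℝ F z 1 - fderiv ℝ F z I)
      (uIcc z0.re w0.re ×ℂ uIcc z0.im w0.im) := by
    have hcomp : IsCompact (uIcc z0.re w0.re ×ℂ uIcc z0.im w0.im) :=
      isCompact_uIcc.reProdIm isCompact_uIcc
    apply Measure.integrableOn_of_bounded (M := C1 * M) hcomp.measure_lt_top.ne
    · apply Measurable.aestronglyMeasurable
      apply Measurable.sub
      · exact (measurable_fderiv_apply_const ℝ F 1).const_smul I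
      · exact measurable_fderiv_apply_const ℝ F I
    · rw [ae_restrict_iff' hcomp.measurableSet]
      refine Filter.Eventually.of_forall fun z hz => ?_
      have hzre : z.re ∈ Icc (Real.log r') (Real.log R) := by
        have := hz.1
        rw [hz0re, hw0re, uIcc_of_le hlog] at this
        exact this
      have := hbd z.re hzre z.im
      rwa [Complex.re_add_im] at this
  have hStokes := integral_boundary_rect_of_differentiableOn_real F z0 w0
    (fun w _ => (hFd w).differentiableAt.differentiableWithinAt) hInt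
  rw [hz0re, hz0im, hw0re, hw0im] at hStokes
  -- horizontal sides cancel
  have hper : ∀ x : ℝ, F (x + ((2 * π : ℝ) : ℂ) * I) = F (x + ((0 : ℝ) : ℂ) * I) := by
    intro x
    have : exp ((x : ℂ) + ((2 * π : ℝ) : ℂ) * I) = exp ((x : ℂ) + ((0 : ℝ) : ℂ) * I) := by
      push_cast
      rw [Complex.exp_add, Complex.exp_two_pi_mul_I, zero_mul, add_zero, mul_one]
    simp only [hF, this]
  simp only [hper, sub_self, zero_add] at hStokes
  -- left side vanishes
  have hleft : ∀ y : ℝ, F ((Real.log r' : ℝ) + y * I) = 0 := by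
    intro y
    have h1 : exp (((Real.log r' : ℝ) : ℂ) + y * I) ∈ V := by
      apply hrV
      rw [mem_ball, dist_zero_right, hnormexp, Real.exp_log hr'pos]
      exact lt_of_le_of_lt (min_le_left _ _) (by linarith)
    simp only [hF, hu, hχV _ h1]
    simp
  simp only [hleft, intervalIntegral.integral_zero, smul_zero, sub_zero] at hStokes
  -- right side is the circle integral
  have hright : (∮ z in C(0, R), p z * φ z) =
      I • ∫ y : ℝ in (0 : ℝ)..(2 * π), F ((Real.log R : ℝ) + y * I) := by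
    rw [circleIntegral, ← intervalIntegral.integral_smul]
    apply intervalIntegral.integral_congr
    intro y _
    have h1 : circleMap 0 R y = exp (((Real.log R : ℝ) : ℂ) + y * I) := by
      rw [circleMap, zero_add, Complex.exp_add, ← Complex.ofReal_exp, Real.exp_log hRpos]
    have h2 : exp (((Real.log R : ℝ) : ℂ) + y * I) ∉ U := by
      intro h
      have := hR h
      rw [mem_ball, dist_zero_right, hnormexp, Real.exp_log hRpos] at this
      exact lt_irrefl _ this
    simp only [deriv_circleMap, smul_eq_mul, hF, hu]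
    rw [h1, (hχU _ h2).1]
    push_cast
    ring
  rw [hright, hStokes]
  calc ‖∫ x : ℝ in Real.log r'..Real.log R, ∫ y : ℝ in (0 : ℝ)..(2 * π),
        I • fderiv ℝ F (x + y * I) 1 - fderiv ℝ F (x + y * I) I‖
      ≤ (C1 * M * |2 * π - 0|) * |Real.log R - Real.log r'| := by
        apply intervalIntegral.norm_integral_le_of_norm_le_const
        intro x hx
        apply intervalIntegral.norm_integral_le_of_norm_le_const
        intro y _
        apply hbd
        rw [uIoc_of_le hlog] at hx
        exact ⟨hx.1.le, hx.2⟩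
    _ = _ := by
        rw [sub_zero, abs_of_pos (by positivity : 0 < 2 * π), abs_of_nonneg (by linarith)]
        ring

end Pool.Agent.Lib.MP_7ab245_nt.House
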