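import Mathlib
import Pool.Agent.Lib.MP_7ab245_nt.House.HankelBound

/-! The moments of the square root function are the coefficients of the power series root. -/

set_option autoImplicit false

open Polynomial Metric Complex

open scoped Real

namespace Pool.Agent.Lib.MP_7ab245_nt.House

/-- Taylor series at 0 -/
noncomputable def taylorAt (g : ℂ → ℂ) : PowerSeries ℂ :=
  PowerSeries.mk fun n => iteratedDeriv n g 0 / (n.factorial : ℂ)

lemma taylorAt_mul {f g : ℂ → ℂ} (hf : AnalyticAt ℂ f 0) (hg : AnalyticAt ℂ g 0) :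
    taylorAt (f * g) = taylorAt f * taylorAt g := by
  ext n
  simp only [taylorAt, PowerSeries.coeff_mk, PowerSeries.coeff_mul,
    iteratedDeriv_mul hf.contDiffAt hg.contDiffAt,
    Finset.Nat.sum_antidiagonal_eq_sum_range_succ_mk, Nat.succ_eq_add_one, Finset.sum_div]
  refine Finset.sum_congr rfl fun i hi => ?_
  rw [Nat.cast_choose _ (by grind)]
  field_simp [Nat.factorial_ne_zero]

lemma taylorAt_linear (b : ℂ) :
    taylorAt (fun x => 1 - b * x) = ((1 - C b * X : ℂ[X]) : PowerSeries ℂ) := by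
  have hd : deriv (fun x : ℂ => 1 - b * x) = fun _ => -b := by
    funext x
    have : HasDerivAt (fun x : ℂ => 1 - b * x) (0 - b * 1) x :=
      (hasDerivAt_const x (1 : ℂ)).sub ((hasDerivAt_id x).const_mul b)
    rw [this.deriv]; ring
  ext n
  rw [taylorAt, PowerSeries.coeff_mk, Polynomial.coeff_coe]
  rcases n with _ | n
  · simp
  · rw [iteratedDeriv_succ', hd]
    rcases n with _ | n
    · simp [coeff_one]
    · simp [iteratedDeriv_const, coeff_one]

/-- the branch of the square root -/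
noncomputable def sq (b x : ℂ) : ℂ := (1 - b * x) ^ (((2 : ℕ) : ℂ)⁻¹)

lemma sq_mul_sq (b : ℂ) : sq b * sq b = fun x => 1 - b * x := by
  funext x
  rw [Pi.mul_apply, ← _root_.sq]
  exact Complex.cpow_nat_inv_pow _ two_ne_zero

lemma sq_zero (b : ℂ) : sq b 0 = 1 := by simp [sq]

lemma analyticAt_sq (b x : ℂ) (h : 1 - b * x ∈ slitPlane) : AnalyticAt ℂ (sq b) x := by
  apply AnalyticAt.cpow
  · fun_prop
  · exact analyticAt_const
  · exact h

lemma mem_slit_of_norm_lt (b x : ℂ) (h : ‖b * x‖ < 1) : 1 - b * x ∈ slitPlane := by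
  have := Complex.mem_slitPlane_of_norm_lt_one (z := -(b * x)) (by rwa [norm_neg])
  rwa [← sub_eq_add_neg] at this

lemma taylorAt_prod {ι : Type} (b : ι → ℂ) (s : Finset ι) :
    (taylorAt (∏ j ∈ s, sq (b j))) ^ 2 =
      ((∏ j ∈ s, (1 - C (b j) * X) : ℂ[X]) : PowerSeries ℂ) ∧
    PowerSeries.constantCoeff (taylorAt (∏ j ∈ s, sq (b j))) = 1 := by
  classical
  have han : ∀ j, AnalyticAt ℂ (sq (b j)) 0 := fun j => analyticAt_sq _ _ (by simp)
  induction s using Finset.induction_on with
  | empty =>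
    have h1 : taylorAt (1 : ℂ → ℂ) = 1 := by
      have := taylorAt_linear 0
      have h2 : (fun x : ℂ => 1 - 0 * x) = 1 := by funext x; simp
      rw [h2] at this
      rw [this]; simp
    constructor
    · simp [h1]
    · simp [h1]
  | insert a s ha ih =>
    rw [Finset.prod_insert ha, Finset.prod_insert ha]
    have hprod : AnalyticAt ℂ (∏ j ∈ s, sq (b j)) 0 :=
      Finset.analyticAt_prod _ fun j _ => han j
    rw [taylorAt_mul (han a) hprod]
    have h0 : (taylorAt (sq (b a))) ^ 2 = ((1 - C (b a) * X : ℂ[X]) : PowerSeries ℂ) := by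
      rw [_root_.sq, ← taylorAt_mul (han a) (han a), sq_mul_sq, taylorAt_linear]
    have h0' : PowerSeries.constantCoeff (taylorAt (sq (b a))) = 1 := by
      rw [← PowerSeries.coeff_zero_eq_constantCoeff_apply, taylorAt, PowerSeries.coeff_mk]
      simp [sq_zero]
    constructor
    · rw [mul_pow, ih.1, h0, Polynomial.coe_mul]
    · rw [map_mul, ih.2, h0', one_mul]

variable {ι : Type} [Fintype ι]

lemma eq_taylorAt (b : ι → ℂ) (v : PowerSeries ℂ) (hv0 : PowerSeries.constantCoeff v = 1)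
    (hv : v ^ 2 = ((∏ j, (1 - C (b j) * X) : ℂ[X]) : PowerSeries ℂ)) :
    v = taylorAt (∏ j, sq (b j)) := by
  obtain ⟨h1, h2⟩ := taylorAt_prod b Finset.univ
  rw [← hv] at h1
  rcases sq_eq_sq_iff_eq_or_eq_neg.mp h1 with h | h
  · exact h.symm
  · exfalso
    rw [h, map_neg, hv0] at h2
    norm_num at h2

/-- change of variables `z = 1/x` in a circle integral -/
lemma circleIntegral_inv (g : ℂ → ℂ) (R : ℝ) (hR : 0 < R) (k : ℕ) :
    (∮ z in C(0, R), z ^ k * g z⁻¹) = ∮ x in C(0, R⁻¹), (1 / (x - 0) ^ (k + 1 + 1)) • g x := by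
  rw [circleIntegral, circleIntegral]
  have h1 := intervalIntegral.integral_comp_sub_left (a := 0) (b := 2 * π)
    (fun θ : ℝ => deriv (circleMap 0 R⁻¹) θ •
      (fun x => (1 / (x - 0) ^ (k + 1 + 1)) • g x) (circleMap 0 R⁻¹ θ)) (2 * π)
  rw [sub_self, sub_zero] at h1
  rw [← h1]
  apply intervalIntegral.integral_congr
  intro θ _
  have hinv : circleMap 0 R⁻¹ (2 * π - θ) = (circleMap 0 R θ)⁻¹ := by
    rw [circleMap, circleMap, zero_add, zero_add, mul_inv, ← Complex.exp_neg]
    push_cast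
    congr 1
    rw [sub_mul, Complex.exp_sub, Complex.exp_neg]
    have : Complex.exp (2 * π * I) = 1 := Complex.exp_two_pi_mul_I
    rw [this, one_div]
  have hne : circleMap 0 R θ ≠ 0 := by
    rw [circleMap, zero_add]
    exact mul_ne_zero (by exact_mod_cast hR.ne') (Complex.exp_ne_zero _)
  simp only [deriv_circleMap, smul_eq_mul]
  rw [hinv]
  generalize circleMap 0 R θ = z at *
  rw [sub_zero, one_div, inv_pow, inv_inv]
  have e : z⁻¹ * z ^ (k + 1 + 1) = z * z ^ k := by
    rw [pow_succ' z (k + 1), pow_succ' z k, ← mul_assoc, inv_mul_cancel₀ hne, one_mul]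
  linear_combination (-(I * g z⁻¹)) * e

end Pool.Agent.Lib.MP_7ab245_nt.House
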