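import Mathlib
import Pool.Agent.Lib.MP_7ab245_nt.House.HankelBound
import Pool.Agent.Lib.MP_7ab245_nt.House.Stokes
import Pool.Agent.Lib.MP_7ab245_nt.House.Taylor

/-! The functional of a square root is bounded by sup norms near the slits. -/

set_option autoImplicit false

open Polynomial Metric Complex

open scoped Real

namespace Pool.Agent.Lib.MP_7ab245_nt.House

variable {ι : Type} [Fintype ι]

/-- the radial slits from the origin to the branch points -/
def slits (b : ι → ℂ) : Set ℂ := insert 0 (⋃ j, (fun t : ℝ => (t : ℂ) * b j) '' Set.Icc 0 1)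

lemma slits_closed (b : ι → ℂ) : IsClosed (slits b) := by
  have h : IsCompact (slits b) := by
    apply IsCompact.insert
    apply isCompact_iUnion
    intro j
    apply isCompact_Icc.image
    fun_prop
  exact h.isClosed

/-- the square root function -/
noncomputable def phi (b : ι → ℂ) (z : ℂ) : ℂ := ∏ j, sq (b j) z⁻¹

lemma slit_of_not_mem (b : ι → ℂ) (z : ℂ) (hz : z ∉ slits b) (j : ι) :
    1 - b j * z⁻¹ ∈ slitPlane := by
  by_contra h
  apply hz
  rw [Complex.mem_slitPlane_iff] at h
  push Not at h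
  obtain ⟨h1, h2⟩ := h
  by_cases hz0 : z = 0
  · rw [hz0]; exact Set.mem_insert _ _
  right
  rw [Set.mem_iUnion]
  refine ⟨j, ?_⟩
  set t : ℝ := -(1 - b j * z⁻¹).re with ht
  have ht0 : 0 ≤ t := by rw [ht]; linarith
  have heq : 1 - b j * z⁻¹ = ((-t : ℝ) : ℂ) := by
    apply Complex.ext
    · rw [ht]; simp
    · rw [h2]; simp
  have hbz : b j = (1 + t) * z := by
    have h3 : b j * z⁻¹ = 1 + t := by
      have : b j * z⁻¹ = 1 - (1 - b j * z⁻¹) := by ring
      rw [this, heq]; push_cast; ring
    have h4 : b j = b j * z⁻¹ * z := by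
      rw [mul_assoc, inv_mul_cancel₀ hz0, mul_one]
    rw [h4, h3]
  have h1t : (1 + (t : ℂ)) ≠ 0 := by
    have : ((1 + t : ℝ) : ℂ) ≠ 0 := by
      exact_mod_cast (by linarith : (0 : ℝ) < 1 + t).ne'
    simpa using this
  refine ⟨(1 + t)⁻¹, ⟨by positivity, inv_le_one_of_one_le₀ (by linarith)⟩, ?_⟩
  simp only
  rw [hbz]
  push_cast
  field_simp

lemma phi_differentiableAt (b : ι → ℂ) (z : ℂ) (hz : z ∉ slits b) :
    DifferentiableAt ℂ (phi b) z := by
  have hz0 : z ≠ 0 := by
    rintro rfl
    exact hz (Set.mem_insert _ _)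
  have : phi b = fun z => ∏ j, sq (b j) z⁻¹ := rfl
  rw [this]
  apply DifferentiableAt.fun_finsetProd
  intro j _
  have h1 : DifferentiableAt ℂ (sq (b j)) z⁻¹ :=
    (analyticAt_sq _ _ (slit_of_not_mem b z hz j)).differentiableAt
  exact h1.comp z (differentiableAt_inv hz0)

lemma not_mem_slits (b : ι → ℂ) (R : ℝ) (hR0 : 0 < R) (hR : ∀ j, ‖b j‖ < R) (z : ℂ)
    (hz : ‖z‖ = R) : z ∉ slits b := by
  intro h
  rcases h with h | h
  · rw [h, norm_zero] at hz
    linarith
  · rw [Set.mem_iUnion] at h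
    obtain ⟨j, t, ht, hj⟩ := h
    have : ‖z‖ ≤ ‖b j‖ := by
      rw [← hj]
      simp only [norm_mul, Complex.norm_real]
      rw [Real.norm_of_nonneg ht.1]
      exact mul_le_of_le_one_left (norm_nonneg _) ht.2
    have := hR j
    linarith

lemma circleIntegral_phi (b : ι → ℂ) (v : PowerSeries ℂ)
    (hv0 : PowerSeries.constantCoeff v = 1)
    (hv : v ^ 2 = ((∏ j, (1 - C (b j) * X) : ℂ[X]) : PowerSeries ℂ))
    (R : ℝ) (hR0 : 0 < R) (hR : ∀ j, ‖b j‖ < R) (p : ℂ[X]) :
    (∮ z in C(0, R), p.eval z * phi b z) = 2 * π * I * functional v p := by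
  have hcont : ∀ q : ℂ[X], CircleIntegrable (fun z => q.eval z * phi b z) 0 R := by
    intro q
    apply ContinuousOn.circleIntegrable hR0.le
    intro z hz
    have hz' : ‖z‖ = R := by simpa using hz
    apply ContinuousAt.continuousWithinAt
    exact (q.continuous.continuousAt).mul
      (phi_differentiableAt b z (not_mem_slits b R hR0 hR z hz')).continuousAt
  induction p using Polynomial.induction_on' with
  | add p q hp hq =>
    rw [map_add, mul_add, ← hp, ← hq]
    rw [← circleIntegral.integral_add (hcont p) (hcont q)]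
    congr 1
    funext z
    rw [eval_add]; ring
  | monomial k c =>
    rw [functional_monomial, eq_taylorAt b v hv0 hv, taylorAt, PowerSeries.coeff_mk]
    have h1 : (fun z : ℂ => (monomial k c).eval z * phi b z) =
        fun z => c • (z ^ k * (∏ j, sq (b j)) z⁻¹) := by
      funext z
      rw [eval_monomial, phi, Finset.prod_apply, smul_eq_mul]
      ring
    have h2 : (∮ z in C(0, R), (monomial k c).eval z * phi b z) =
        ∮ z in C(0, R), c • (z ^ k * (∏ j, sq (b j)) z⁻¹) := by
      rw [h1]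
    rw [h2, circleIntegral.integral_smul, circleIntegral_inv _ R hR0 k]
    have hd : DiffContOnCl ℂ (∏ j, sq (b j)) (ball 0 R⁻¹) := by
      have : DifferentiableOn ℂ (∏ j, sq (b j)) (closedBall 0 R⁻¹) := by
        intro x hx
        apply DifferentiableAt.differentiableWithinAt
        apply DifferentiableAt.finsetProd
        intro j _
        apply AnalyticAt.differentiableAt
        apply analyticAt_sq
        apply mem_slit_of_norm_lt
        rw [norm_mul]
        have hx' : ‖x‖ ≤ R⁻¹ := by simpa using hx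
        calc ‖b j‖ * ‖x‖ ≤ ‖b j‖ * R⁻¹ := by gcongr
          _ < R * R⁻¹ := by
              apply mul_lt_mul_of_pos_right (hR j) (by positivity)
          _ = 1 := mul_inv_cancel₀ hR0.ne'
      exact this.diffContOnCl_ball subset_rfl
    rw [hd.circleIntegral_one_div_sub_center_pow_smul (by positivity) (k + 1)]
    simp only [smul_eq_mul]
    ring

theorem functional_bound (b : ι → ℂ) (v : PowerSeries ℂ)
    (hv0 : PowerSeries.constantCoeff v = 1)
    (hv : v ^ 2 = ((∏ j, (1 - C (b j) * X) : ℂ[X]) : PowerSeries ℂ))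
    (U : Set ℂ) (hU : IsOpen U) (hKU : slits b ⊆ U) (R : ℝ) (hUR : U ⊆ ball 0 R) :
    ∃ C : ℝ, 0 ≤ C ∧ ∀ p : ℂ[X], ∀ M : ℝ, 0 ≤ M → (∀ z ∈ U, ‖p.eval z‖ ≤ M) →
      ‖functional v p‖ ≤ C * M := by
  have h0 : (0 : ℂ) ∈ slits b := Set.mem_insert _ _
  have hR0 : 0 < R := by
    have := hUR (hKU h0)
    rw [mem_ball, dist_self] at this
    exact this
  have hR : ∀ j, ‖b j‖ < R := by
    intro j
    have h1 : b j ∈ slits b := by
      right
      rw [Set.mem_iUnion]
      exact ⟨j, 1, ⟨by norm_num, by norm_num⟩, by simp⟩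
    have := hUR (hKU h1)
    rwa [mem_ball, dist_zero_right] at this
  obtain ⟨C, hC, hb⟩ := circle_integral_bound (phi b) (slits b) U (slits_closed b) h0 hU hKU
    (phi_differentiableAt b) R hUR
  refine ⟨C, hC, fun p M hM hp => ?_⟩
  have h2 := hb (fun z => p.eval z) p.differentiable M hM hp
  rw [circleIntegral_phi b v hv0 hv R hR0 hR p, norm_mul] at h2
  have h3 : (1 : ℝ) ≤ ‖(2 * π * I : ℂ)‖ := by
    rw [norm_mul, norm_mul, Complex.norm_I, mul_one, Complex.norm_real,
      Real.norm_of_nonneg Real.pi_pos.le]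
    have := Real.pi_gt_three
    simp only [Complex.norm_ofNat]
    linarith
  calc ‖functional v p‖ = 1 * ‖functional v p‖ := (one_mul _).symm
    _ ≤ ‖(2 * π * I : ℂ)‖ * ‖functional v p‖ := by gcongr
    _ ≤ C * M := h2

end Pool.Agent.Lib.MP_7ab245_nt.House
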