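import Mathlib

/-! Monic polynomials which are small on the unit disc and on radial slits attached to it. -/

set_option autoImplicit false

open Polynomial Metric

open scoped Nat

namespace Pool.Agent.Lib.MP_7ab245_nt.House

lemma exists_monic_abs (E : ℂ → ℂ) (r : ℝ) (hr : 1 < r) (hE : DifferentiableOn ℂ E (ball 0 r))
    (h1 : ∀ x, ‖x‖ = 1 → ‖E x‖ ≤ 1) (κ : ℝ) (hκ : 0 < κ) (h0 : E 0 = κ) (D : ℕ) :
    ∃ P : ℂ[X], P.Monic ∧ P.natDegree = D ∧
      ∀ ζ : ℂ, (‖ζ‖ ≤ 1 ∨ ‖ζ‖ ^ D * ‖E ζ⁻¹‖ ≤ 1) → ‖P.eval ζ‖ ≤ 3 * (D + 1) / κ := by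
  set c : ℕ → ℂ := fun k => (k ! : ℂ)⁻¹ * iteratedDeriv k E 0 with hc
  have hκC : (κ : ℂ) ≠ 0 := by exact_mod_cast hκ.ne'
  have hc0 : c 0 = κ := by simp [hc, h0]
  have hcle : ∀ k, ‖c k‖ ≤ 1 := by
    intro k
    have hd : DiffContOnCl ℂ E (ball 0 1) :=
      (hE.mono (closedBall_subset_ball hr)).diffContOnCl_ball subset_rfl
    have := Complex.norm_iteratedDeriv_le_of_forall_mem_sphere_norm_le k one_pos hd
      (C := 1) (fun z hz => h1 z (by simpa using hz))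
    rw [one_pow, div_one, mul_one] at this
    have hk : (0 : ℝ) < k ! := by exact_mod_cast Nat.factorial_pos k
    rw [hc]
    simp only [norm_mul, norm_inv, Complex.norm_natCast]
    rw [inv_mul_le_iff₀ hk, mul_one]
    exact this
  have hsum : ∀ x : ℂ, ‖x‖ < 1 → HasSum (fun k => c k * x ^ k) (E x) := by
    intro x hx
    have := Complex.hasSum_taylorSeries_on_ball hE (z := x) (by
      rw [mem_ball, dist_zero_right]; linarith)
    have hfun : (fun k => c k * x ^ k) =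
        fun k : ℕ => ((k ! : ℂ)⁻¹ • (x - 0) ^ k • iteratedDeriv k E 0) := by
      funext k
      rw [hc]
      simp only [sub_zero, smul_eq_mul]
      ring
    rw [hfun]
    exact this
  -- the polynomial
  set P : ℂ[X] := ∑ k ∈ Finset.range (D + 1), C (c k / κ) * X ^ (D - k) with hP
  have hPeq : P = X ^ D + ∑ k ∈ Finset.range D, C (c (k + 1) / κ) * X ^ (D - (k + 1)) := by
    rw [hP, Finset.sum_range_succ']
    rw [hc0, div_self hκC, C_1, one_mul, Nat.sub_zero, add_comm]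
  have hdeg : (∑ k ∈ Finset.range D, C (c (k + 1) / κ) * X ^ (D - (k + 1)) : ℂ[X]).degree < D := by
    rcases Nat.eq_zero_or_pos D with rfl | hD
    · simp
    · refine lt_of_le_of_lt (degree_sum_le _ _) ?_
      rw [Finset.sup_lt_iff (by exact_mod_cast WithBot.bot_lt_coe D)]
      intro k hk
      refine lt_of_le_of_lt (degree_C_mul_X_pow_le _ _) ?_
      have := Finset.mem_range.mp hk
      exact_mod_cast (by omega : D - (k + 1) < D)
  have hmonic : P.Monic := by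
    rw [hPeq]; exact monic_X_pow_add hdeg
  have hnat : P.natDegree = D := by
    rw [hPeq]
    exact natDegree_eq_of_degree_eq_some (by
      rw [degree_add_eq_left_of_degree_lt]
      · exact degree_X_pow D
      · rw [degree_X_pow]; exact hdeg)
  have heval : ∀ ζ : ℂ, P.eval ζ = (∑ k ∈ Finset.range (D + 1), c k * ζ ^ (D - k)) / κ := by
    intro ζ
    rw [hP, eval_finsetSum, Finset.sum_div]
    refine Finset.sum_congr rfl fun k _ => ?_
    simp
    ring
  refine ⟨P, hmonic, hnat, ?_⟩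
  intro ζ hζ
  rw [heval, norm_div, Complex.norm_real, Real.norm_of_nonneg hκ.le]
  gcongr
  have hDpos : (0 : ℝ) < D + 1 := by positivity
  -- crude bound when |ζ| is at most 1 + 1/(D+1)
  by_cases hsmall : ‖ζ‖ ≤ 1 + ((D + 1 : ℕ) : ℝ)⁻¹
  · have hterm : ∀ k ∈ Finset.range (D + 1), ‖c k * ζ ^ (D - k)‖ ≤ 3 := by
      intro k _
      rw [norm_mul, norm_pow]
      have hone : (1 : ℝ) ≤ 1 + ((D + 1 : ℕ) : ℝ)⁻¹ := by
        have : (0 : ℝ) < ((D + 1 : ℕ) : ℝ)⁻¹ := by positivity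
        linarith
      have e1 : ‖ζ‖ ^ (D - k) ≤ 3 := by
        calc ‖ζ‖ ^ (D - k) ≤ (1 + ((D + 1 : ℕ) : ℝ)⁻¹) ^ (D - k) := by gcongr
          _ ≤ (1 + ((D + 1 : ℕ) : ℝ)⁻¹) ^ (D + 1) := pow_le_pow_right₀ hone (by omega)
          _ ≤ Real.exp 1 := Real.one_add_inv_pow_le_exp
          _ ≤ 3 := by
              have := Real.exp_one_lt_d9
              linarith
      calc ‖c k‖ * ‖ζ‖ ^ (D - k) ≤ 1 * 3 := by
            gcongr
            exact hcle k
        _ = 3 := one_mul _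
    calc ‖∑ k ∈ Finset.range (D + 1), c k * ζ ^ (D - k)‖
        ≤ ∑ k ∈ Finset.range (D + 1), ‖c k * ζ ^ (D - k)‖ := norm_sum_le _ _
      _ ≤ (Finset.range (D + 1)).card • (3 : ℝ) := Finset.sum_le_card_nsmul _ _ _ hterm
      _ = 3 * (D + 1) := by
          rw [Finset.card_range, nsmul_eq_mul]; push_cast; ring
  · push Not at hsmall
    have hDinv : (0 : ℝ) < ((D + 1 : ℕ) : ℝ)⁻¹ := by positivity
    have hζ1 : 1 < ‖ζ‖ := by linarith
    have hζ0 : ζ ≠ 0 := by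
      rintro rfl
      rw [norm_zero] at hζ1
      linarith
    have hE1 : ‖ζ‖ ^ D * ‖E ζ⁻¹‖ ≤ 1 := by
      rcases hζ with h | h
      · linarith
      · exact h
    set x := ζ⁻¹ with hx
    have hx1 : ‖x‖ < 1 := by
      rw [hx, norm_inv]
      exact inv_lt_one_of_one_lt₀ hζ1
    have hs := hsum x hx1
    have hsplit := hs.summable.sum_add_tsum_nat_add (D + 1)
    rw [hs.tsum_eq] at hsplit
    have hpoly : ∑ k ∈ Finset.range (D + 1), c k * ζ ^ (D - k) =
        ζ ^ D * ∑ k ∈ Finset.range (D + 1), c k * x ^ k := by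
      rw [Finset.mul_sum]
      refine Finset.sum_congr rfl fun k hk => ?_
      have hkD : k ≤ D := by
        have := Finset.mem_range.mp hk
        omega
      have : ζ ^ D = ζ ^ (D - k) * ζ ^ k := by
        rw [← pow_add]; congr 1; omega
      rw [this, hx, inv_pow]
      have : ζ ^ k ≠ 0 := pow_ne_zero _ hζ0
      field_simp
    have hpoly2 : ∑ k ∈ Finset.range (D + 1), c k * ζ ^ (D - k) =
        ζ ^ D * E x - ζ ^ D * ∑' k, c (k + (D + 1)) * x ^ (k + (D + 1)) := by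
      rw [hpoly, ← hsplit]; ring
    rw [hpoly2]
    have htail : ‖ζ ^ D * ∑' k, c (k + (D + 1)) * x ^ (k + (D + 1))‖ ≤ D + 1 := by
      rw [← tsum_mul_left]
      have hterm : ∀ k, ‖ζ ^ D * (c (k + (D + 1)) * x ^ (k + (D + 1)))‖ ≤ ‖x‖ * ‖x‖ ^ k := by
        intro k
        rw [norm_mul, norm_mul, norm_pow, norm_pow]
        have e1 : ‖ζ‖ ^ D * ‖x‖ ^ (k + (D + 1)) = ‖x‖ * ‖x‖ ^ k := by
          have : ‖ζ‖ ^ D * ‖x‖ ^ D = 1 := by
            rw [← mul_pow, hx, norm_inv, mul_inv_cancel₀ (by linarith), one_pow]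
          calc ‖ζ‖ ^ D * ‖x‖ ^ (k + (D + 1)) = (‖ζ‖ ^ D * ‖x‖ ^ D) * (‖x‖ * ‖x‖ ^ k) := by ring
            _ = _ := by rw [this, one_mul]
        calc ‖ζ‖ ^ D * (‖c (k + (D + 1))‖ * ‖x‖ ^ (k + (D + 1)))
            = ‖c (k + (D + 1))‖ * (‖ζ‖ ^ D * ‖x‖ ^ (k + (D + 1))) := by ring
          _ ≤ 1 * (‖ζ‖ ^ D * ‖x‖ ^ (k + (D + 1))) := by
              gcongr
              exact hcle _
          _ = _ := by rw [one_mul, e1]
      have hgeo : HasSum (fun k : ℕ => ‖x‖ * ‖x‖ ^ k) (‖x‖ * (1 - ‖x‖)⁻¹) :=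
        (hasSum_geometric_of_lt_one (norm_nonneg _) hx1).mul_left _
      refine (tsum_of_norm_bounded hgeo hterm).trans ?_
      rw [← div_eq_mul_inv, div_le_iff₀ (by linarith), hx, norm_inv]
      have h2 : 1 < ((D : ℝ) + 1) * (‖ζ‖ - 1) := by
        have h3 : ((D + 1 : ℕ) : ℝ)⁻¹ < ‖ζ‖ - 1 := by linarith
        rw [inv_lt_iff_one_lt_mul₀ (by positivity)] at h3
        push_cast at h3
        linarith
      have h4 : ((D : ℝ) + 1) * (1 - ‖ζ‖⁻¹) = ((D : ℝ) + 1) * (‖ζ‖ - 1) * ‖ζ‖⁻¹ := by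
        field_simp
      rw [h4]
      have h5 : 0 < ‖ζ‖⁻¹ := by positivity
      nlinarith
    calc ‖ζ ^ D * E x - ζ ^ D * ∑' k, c (k + (D + 1)) * x ^ (k + (D + 1))‖
        ≤ ‖ζ ^ D * E x‖ + ‖ζ ^ D * ∑' k, c (k + (D + 1)) * x ^ (k + (D + 1))‖ := norm_sub_le _ _
      _ ≤ 1 + (D + 1) := by
          gcongr
          rw [norm_mul, norm_pow]
          exact hE1
      _ ≤ 3 * (D + 1) := by
          have : (0 : ℝ) ≤ D := by positivity
          linarith

end Pool.Agent.Lib.MP_7ab245_nt.House
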