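import Mathlib
import Pool.Agent.Lib.MP_7ab245_nt.House.MonicPoly
import Pool.Agent.Lib.MP_7ab245_nt.House.Ident

/-! Monic polynomials that are geometrically small near the slits. -/

set_option autoImplicit false

open Polynomial Metric Complex

open scoped Real

namespace Pool.Agent.Lib.MP_7ab245_nt.House

lemma exp_two_mul_lt (σ : ℝ) (h0 : 0 < σ) (h1 : σ < 1) :
    (1 - σ) * Real.exp σ < (1 + σ) * Real.exp (-σ) := by
  have hs := Real.hasSum_log_sub_log_of_abs_lt_one (x := σ) (by rw [abs_of_pos h0]; exact h1)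
  have h2 : ∑ k ∈ Finset.range 2, (2 : ℝ) * (1 / (2 * k + 1)) * σ ^ (2 * k + 1) ≤
      Real.log (1 + σ) - Real.log (1 - σ) := by
    apply sum_le_hasSum _ _ hs
    intro k _
    positivity
  rw [Finset.sum_range_succ, Finset.sum_range_one] at h2
  have h3 : 2 * σ < Real.log (1 + σ) - Real.log (1 - σ) := by
    have : 0 < σ ^ 3 := by positivity
    norm_num at h2
    linarith
  have hp : 0 < 1 - σ := by linarith
  have hp' : 0 < 1 + σ := by linarith
  have h4 : Real.log (1 - σ) + σ < Real.log (1 + σ) + -σ := by linarith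
  have h5 := Real.exp_lt_exp.mpr h4
  rw [Real.exp_add, Real.exp_add, Real.exp_log hp, Real.exp_log hp'] at h5
  exact h5

lemma coth_ineq (σ y : ℝ) (hσ : 0 < σ) (hy0 : 0 ≤ y) (hyσ : y ≤ σ) :
    y < σ ^ 2 * ((Real.exp y + Real.exp (-σ)) / (Real.exp y - Real.exp (-σ))) := by
  have hlt : Real.exp (-σ) < Real.exp y := Real.exp_lt_exp.mpr (by linarith)
  have hd : 0 < Real.exp y - Real.exp (-σ) := by linarith
  rw [mul_div_assoc', lt_div_iff₀ hd]
  have hE : 0 < Real.exp y := Real.exp_pos _
  have he : 0 < Real.exp (-σ) := Real.exp_pos _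
  have key : Real.exp y - Real.exp (-σ) < σ * (Real.exp y + Real.exp (-σ)) := by
    rcases le_or_gt 1 σ with h | h
    · have h1 : 0 ≤ (σ - 1) * Real.exp y := mul_nonneg (by linarith) hE.le
      have h2 : 0 < (1 + σ) * Real.exp (-σ) := by positivity
      nlinarith
    · have h1 := exp_two_mul_lt σ hσ h
      have h2 : (1 - σ) * Real.exp y ≤ (1 - σ) * Real.exp σ := by
        apply mul_le_mul_of_nonneg_left _ (by linarith)
        exact Real.exp_le_exp.mpr hyσ
      nlinarith
  calc y * (Real.exp y - Real.exp (-σ)) ≤ σ * (Real.exp y - Real.exp (-σ)) := by gcongr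
    _ < σ * (σ * (Real.exp y + Real.exp (-σ))) := by gcongr
    _ = σ ^ 2 * (Real.exp y + Real.exp (-σ)) := by ring

lemma re_nonneg (z a : ℂ) (h : ‖a‖ ≤ ‖z‖) : 0 ≤ ((z + a) / (z - a)).re := by
  rw [Complex.div_re, ← add_div]
  apply div_nonneg _ (Complex.normSq_nonneg _)
  have h1 : (z + a).re * (z - a).re + (z + a).im * (z - a).im = ‖z‖ ^ 2 - ‖a‖ ^ 2 := by
    rw [← Complex.normSq_eq_norm_sq, ← Complex.normSq_eq_norm_sq, Complex.normSq_apply,
      Complex.normSq_apply]
    simp only [Complex.add_re, Complex.sub_re, Complex.add_im, Complex.sub_im]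
    ring
  rw [h1]
  have : ‖a‖ ^ 2 ≤ ‖z‖ ^ 2 := by gcongr
  linarith

variable {ι : Type} [Fintype ι]

theorem capacity (b : ι → ℂ) (τ : ι → ℝ) (hτ0 : ∀ j, 0 ≤ τ j)
    (hτ : ∀ j, ‖b j‖ ≤ Real.exp (τ j)) (hN : 0 < Fintype.card ι)
    (hsum : ∑ j, τ j ^ 2 < 1 / (16 * Fintype.card ι)) :
    ∃ (U : Set ℂ) (R : ℝ) (q : ℝ) (P : ℕ → ℂ[X]), IsOpen U ∧ slits b ⊆ U ∧ U ⊆ ball 0 R ∧
      0 < q ∧ q < 1 ∧ (∀ D, (P D).Monic) ∧ (∀ D, (P D).natDegree = D) ∧
      ∀ D : ℕ, ∀ z ∈ U, ‖(P D).eval z‖ ≤ 3 * (D + 1) * q ^ D := by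
  classical
  set N : ℝ := (Fintype.card ι : ℝ) with hNdef
  have hNpos : 0 < N := by rw [hNdef]; exact_mod_cast hN
  obtain ⟨j0⟩ : Nonempty ι := Fintype.card_pos_iff.mp hN
  set δ : ℝ := 1 / (4 * N) with hδ
  have hδpos : 0 < δ := by positivity
  set ρ : ℝ := Real.exp (-δ) with hρ
  have hρpos : 0 < ρ := Real.exp_pos _
  have hρC : (ρ : ℂ) ≠ 0 := by exact_mod_cast hρpos.ne'
  set σ : ι → ℝ := fun j => τ j + δ with hσ
  have hσpos : ∀ j, 0 < σ j := fun j => by
    have := hτ0 j
    simp only [hσ]; linarith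
  set a : ι → ℂ := fun j => (Real.exp (-σ j) : ℂ) * (b j / ‖b j‖) with ha
  have hanorm : ∀ j, ‖a j‖ ≤ Real.exp (-σ j) := by
    intro j
    simp only [ha, norm_mul, norm_div, Complex.norm_real]
    rw [Real.norm_of_nonneg (Real.exp_pos _).le, Real.norm_of_nonneg (norm_nonneg _)]
    exact mul_le_of_le_one_right (Real.exp_pos _).le (div_self_le_one _)
  have haδ : ∀ j, ‖a j‖ ≤ Real.exp (-δ) := by
    intro j
    refine (hanorm j).trans (Real.exp_le_exp.mpr ?_)
    have := hτ0 j
    simp only [hσ]; linarith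
  have ha1 : ∀ j, ‖a j‖ < 1 := by
    intro j
    refine lt_of_le_of_lt (haδ j) ?_
    rw [Real.exp_lt_one_iff]; linarith
  set lam : ι → ℝ := fun j => σ j ^ 2 with hlam
  have hlam0 : ∀ j, 0 ≤ lam j := fun j => by simp only [hlam]; positivity
  set Λ : ℝ := ∑ j, lam j with hΛ
  -- the harmonic function
  set H : ℂ → ℝ := fun ζ => ∑ j, lam j * ((ζ + a j) / (ζ - a j)).re with hH
  set U' : Set ℂ := {ζ | (∀ j, ‖a j‖ < ‖ζ‖) ∧ ‖ζ‖ * Real.exp (-H ζ) < 1} with hU'
  have hU'open : IsOpen U' := by
    have hV : IsOpen {ζ : ℂ | ∀ j, ‖a j‖ < ‖ζ‖} := by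
      have : {ζ : ℂ | ∀ j, ‖a j‖ < ‖ζ‖} = ⋂ j, {ζ : ℂ | ‖a j‖ < ‖ζ‖} := by
        ext ζ; simp
      rw [this]
      apply isOpen_iInter_of_finite
      intro j
      exact isOpen_lt continuous_const continuous_norm
    have hc : ContinuousOn (fun ζ : ℂ => ‖ζ‖ * Real.exp (-H ζ)) {ζ : ℂ | ∀ j, ‖a j‖ < ‖ζ‖} := by
      intro ζ hζ
      apply ContinuousAt.continuousWithinAt
      apply ContinuousAt.mul continuous_norm.continuousAt
      apply ContinuousAt.rexp
      apply ContinuousAt.neg
      simp only [hH]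
      apply tendsto_finsetSum
      intro j _
      have hne : ζ - a j ≠ 0 := by
        intro h
        have : ζ = a j := by linear_combination h
        have h2 := hζ j
        rw [this] at h2
        exact lt_irrefl _ h2
      have h3 : ContinuousAt (fun ζ : ℂ => (ζ + a j) / (ζ - a j)) ζ := by
        apply ContinuousAt.div
        · fun_prop
        · fun_prop
        · exact hne
      exact (tendsto_const_nhds).mul
        ((Complex.continuous_re.continuousAt).comp (f := fun ζ : ℂ => (ζ + a j) / (ζ - a j)) h3)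
    have := hc.isOpen_inter_preimage hV (isOpen_Iio (a := (1 : ℝ)))
    exact this
  -- the scaled slits lie in the open set
  have hslit : ∀ z ∈ slits b, ‖z / ρ‖ < 1 ∨ z / ρ ∈ U' := by
    intro z hz
    by_cases hz1 : ‖z / ρ‖ < 1
    · exact Or.inl hz1
    right
    push Not at hz1
    have hz0 : z ≠ 0 := by
      rintro rfl
      rw [zero_div, norm_zero] at hz1
      linarith
    rcases hz with hz | hz
    · exact absurd hz hz0
    rw [Set.mem_iUnion] at hz
    obtain ⟨j, t, ht, hj⟩ := hz
    simp only at hj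
    have ht0 : 0 < t := by
      rcases ht.1.lt_or_eq with h | h
      · exact h
      · exfalso
        apply hz0
        rw [← hj, ← h]; simp
    have hbj : b j ≠ 0 := by
      intro h
      apply hz0
      rw [← hj, h, mul_zero]
    have hbn : 0 < ‖b j‖ := norm_pos_iff.mpr hbj
    set u : ℂ := b j / ‖b j‖ with hu
    have hbC : ((‖b j‖ : ℝ) : ℂ) ≠ 0 := by exact_mod_cast hbn.ne'
    have hu1 : ‖u‖ = 1 := by
      rw [hu, norm_div, Complex.norm_real, norm_norm, div_self hbn.ne']
    have hu0 : u ≠ 0 := by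
      intro h
      rw [h, norm_zero] at hu1
      norm_num at hu1
    set s : ℝ := t * ‖b j‖ / ρ with hs
    have hspos : 0 < s := by positivity
    have hζ : z / ρ = s * u := by
      rw [← hj, hs, hu]
      push_cast
      field_simp
    have hζn : ‖z / ρ‖ = s := by
      rw [hζ, norm_mul, hu1, mul_one, Complex.norm_real, Real.norm_of_nonneg hspos.le]
    have hs1 : 1 ≤ s := by rw [← hζn]; exact hz1
    set y : ℝ := Real.log s with hy
    have hy0 : 0 ≤ y := Real.log_nonneg hs1
    have hexpy : Real.exp y = s := Real.exp_log hspos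
    have hyσ : y ≤ σ j := by
      rw [hy, Real.log_le_iff_le_exp hspos]
      have h1 : s ≤ Real.exp (τ j) / ρ := by
        rw [hs]
        gcongr
        calc t * ‖b j‖ ≤ 1 * ‖b j‖ := by
              gcongr
              exact ht.2
          _ = ‖b j‖ := one_mul _
          _ ≤ _ := hτ j
      refine h1.trans (le_of_eq ?_)
      simp only [hσ, hρ]
      rw [← Real.exp_sub]; congr 1; ring
    have hgt : ∀ i, ‖a i‖ < ‖z / ρ‖ := fun i => lt_of_lt_of_le (ha1 i) hz1
    refine ⟨hgt, ?_⟩
    have hHgt : y < H (z / ρ) := by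
      have hterm : ((z / ρ + a j) / (z / ρ - a j)).re =
          (Real.exp y + Real.exp (-σ j)) / (Real.exp y - Real.exp (-σ j)) := by
        have h1 : (z / ρ + a j) / (z / ρ - a j) =
            (((Real.exp y + Real.exp (-σ j)) / (Real.exp y - Real.exp (-σ j)) : ℝ) : ℂ) := by
          rw [hζ, hexpy]
          simp only [ha]
          rw [← hu, ← add_mul, ← sub_mul, mul_div_mul_right _ _ hu0]
          push_cast
          rfl
        rw [h1, Complex.ofReal_re]
      have h1 : lam j * ((z / ρ + a j) / (z / ρ - a j)).re ≤ H (z / ρ) := by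
        simp only [hH]
        apply Finset.single_le_sum (f := fun i => lam i * ((z / ρ + a i) / (z / ρ - a i)).re)
        · intro i _
          exact mul_nonneg (hlam0 i) (re_nonneg _ _ (hgt i).le)
        · exact Finset.mem_univ j
      refine lt_of_lt_of_le ?_ h1
      rw [hterm]
      exact coth_ineq (σ j) y (hσpos j) hy0 hyσ
    rw [hζn, ← hexpy, ← Real.exp_add, Real.exp_lt_one_iff]
    linarith
  -- the polynomials
  have hpoly : ∀ D : ℕ, ∃ P : ℂ[X], P.Monic ∧ P.natDegree = D ∧
      ∀ ζ : ℂ, (‖ζ‖ < 1 ∨ ζ ∈ U') → ‖P.eval ζ‖ ≤ 3 * (D + 1) / Real.exp (-(D * Λ)) := by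
    intro D
    set E : ℂ → ℂ := fun x => Complex.exp (-(D * ∑ j, lam j * ((1 + a j * x) / (1 - a j * x))))
      with hE
    have hne : ∀ x : ℂ, ‖x‖ < Real.exp δ → ∀ j, 1 - a j * x ≠ 0 := by
      intro x hx j h
      have h1 : a j * x = 1 := by linear_combination -h
      have h2 : ‖a j * x‖ < 1 := by
        rw [norm_mul]
        calc ‖a j‖ * ‖x‖ ≤ Real.exp (-δ) * ‖x‖ := by gcongr; exact haδ j
          _ < Real.exp (-δ) * Real.exp δ := by gcongr
          _ = 1 := by rw [← Real.exp_add]; simp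
      rw [h1, norm_one] at h2
      exact lt_irrefl _ h2
    have hEd : DifferentiableOn ℂ E (ball 0 (Real.exp δ)) := by
      intro x hx
      have hx' : ‖x‖ < Real.exp δ := by simpa using hx
      apply DifferentiableAt.differentiableWithinAt
      simp only [hE]
      apply DifferentiableAt.cexp
      apply DifferentiableAt.neg
      apply DifferentiableAt.const_mul
      apply DifferentiableAt.fun_sum
      intro j _
      apply DifferentiableAt.const_mul
      apply DifferentiableAt.div
      · fun_prop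
      · fun_prop
      · exact hne x hx' j
    have hnormE : ∀ x : ℂ, ‖E x‖ =
        Real.exp (-(D * ∑ j, lam j * ((1 + a j * x) / (1 - a j * x)).re)) := by
      intro x
      simp only [hE]
      rw [Complex.norm_exp]
      congr 1
      rw [Complex.neg_re, ← Complex.ofReal_natCast, Complex.re_ofReal_mul, Complex.re_sum]
      congr 2
      refine Finset.sum_congr rfl fun j _ => ?_
      rw [Complex.re_ofReal_mul]
    obtain ⟨P, hP1, hP2, hP3⟩ := exists_monic_abs E (Real.exp δ)
      (Real.one_lt_exp_iff.mpr hδpos) hEd (by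
        intro x hx
        rw [hnormE, Real.exp_le_one_iff]
        have : 0 ≤ ∑ j, lam j * ((1 + a j * x) / (1 - a j * x)).re := by
          apply Finset.sum_nonneg
          intro j _
          apply mul_nonneg (hlam0 j)
          apply re_nonneg
          rw [norm_mul, hx, mul_one, norm_one]
          exact (ha1 j).le
        have : 0 ≤ D * ∑ j, lam j * ((1 + a j * x) / (1 - a j * x)).re := by positivity
        linarith)
      (Real.exp (-(D * Λ))) (Real.exp_pos _) (by
        simp only [hE, mul_zero, add_zero, sub_zero, div_one, mul_one]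
        push_cast
        congr 3
        rw [hΛ]; push_cast; rfl) D
    refine ⟨P, hP1, hP2, fun ζ hζ => hP3 ζ ?_⟩
    rcases hζ with h | h
    · exact Or.inl h.le
    · right
      obtain ⟨hgt, hlt⟩ := h
      have hζ0 : ζ ≠ 0 := by
        rintro rfl
        have := hgt j0
        rw [norm_zero] at this
        exact absurd (norm_nonneg (a j0)) (not_le.mpr this)
      have h1 : ‖E ζ⁻¹‖ = Real.exp (-H ζ) ^ D := by
        rw [hnormE, ← Real.exp_nat_mul]
        congr 1
        have : ∀ j, (1 + a j * ζ⁻¹) / (1 - a j * ζ⁻¹) = (ζ + a j) / (ζ - a j) := by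
          intro j
          have h2 : 1 + a j * ζ⁻¹ = (ζ + a j) * ζ⁻¹ := by
            rw [add_mul, mul_inv_cancel₀ hζ0]
          have h3 : 1 - a j * ζ⁻¹ = (ζ - a j) * ζ⁻¹ := by
            rw [sub_mul, mul_inv_cancel₀ hζ0]
          rw [h2, h3, mul_div_mul_right _ _ (inv_ne_zero hζ0)]
        simp only [hH, this]
        ring
      rw [h1, ← mul_pow]
      exact pow_le_one₀ (by positivity) hlt.le
  choose P' hP'1 hP'2 hP'3 using hpoly
  -- compactness radius
  obtain ⟨R, hR⟩ : ∃ R : ℝ, slits b ⊆ ball 0 R := by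
    have hbdd : Bornology.IsBounded (slits b) := by
      have : IsCompact (slits b) := by
        apply IsCompact.insert
        apply isCompact_iUnion
        intro j
        apply isCompact_Icc.image
        fun_prop
      exact this.isBounded
    exact hbdd.subset_ball 0
  have hdiv : Continuous fun z : ℂ => z / (ρ : ℂ) := by fun_prop
  refine ⟨((fun z : ℂ => z / (ρ : ℂ)) ⁻¹' (ball 0 1 ∪ U')) ∩ ball 0 R, R, ρ * Real.exp Λ,
    fun D => (P' D).scaleRoots (ρ : ℂ), ?_, ?_, Set.inter_subset_right, by positivity, ?_, ?_, ?_,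
    ?_⟩
  · exact ((isOpen_ball.union hU'open).preimage hdiv).inter isOpen_ball
  · intro z hz
    refine ⟨?_, hR hz⟩
    rcases hslit z hz with h | h
    · left; simpa using h
    · right; exact h
  · rw [hρ, ← Real.exp_add, Real.exp_lt_one_iff]
    have h1 : Λ ≤ 2 * ∑ j, τ j ^ 2 + 2 * (N * δ ^ 2) := by
      have : Λ ≤ ∑ j, (2 * τ j ^ 2 + 2 * δ ^ 2) := by
        rw [hΛ]
        apply Finset.sum_le_sum
        intro j _
        simp only [hlam, hσ]
        nlinarith [_root_.sq_nonneg (τ j - δ)]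
      refine this.trans (le_of_eq ?_)
      rw [Finset.sum_add_distrib, ← Finset.mul_sum, Finset.sum_const, Finset.card_univ,
        nsmul_eq_mul]
      ring
    have h2 : N * δ ^ 2 = 1 / (16 * N) := by
      rw [hδ]; field_simp; norm_num
    rw [h2] at h1
    have h3 : δ = 4 * (1 / (16 * N)) := by
      rw [hδ]; field_simp; norm_num
    linarith
  · intro D
    exact (monic_scaleRoots_iff _).mpr (hP'1 D)
  · intro D
    rw [natDegree_scaleRoots, hP'2]
  · intro D z hz
    have hz' : ‖z / ρ‖ < 1 ∨ z / ρ ∈ U' := by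
      rcases hz.1 with h | h
      · left; simpa using h
      · right; exact h
    have h1 := hP'3 D (z / ρ) hz'
    have h2 : ((P' D).scaleRoots (ρ : ℂ)).eval z = (ρ : ℂ) ^ D * (P' D).eval (z / ρ) := by
      have h3 := scaleRoots_eval₂_mul (p := P' D) (RingHom.id ℂ) (z / ρ) (ρ : ℂ)
      rw [RingHom.id_apply, mul_div_cancel₀ _ hρC, hP'2] at h3
      exact h3
    rw [h2, norm_mul, norm_pow, Complex.norm_real, Real.norm_of_nonneg hρpos.le]
    calc ρ ^ D * ‖(P' D).eval (z / ρ)‖ ≤ ρ ^ D * (3 * (D + 1) / Real.exp (-(D * Λ))) := by gcongr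
      _ = 3 * (D + 1) * (ρ * Real.exp Λ) ^ D := by
          have h4 : Real.exp Λ ^ D = Real.exp (D * Λ) := (Real.exp_nat_mul Λ D).symm
          rw [mul_pow, h4, Real.exp_neg, div_inv_eq_mul]
          ring

end Pool.Agent.Lib.MP_7ab245_nt.House
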