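import Mathlib

/-! Graeffe transforms and integrality of a square root. -/

set_option autoImplicit false

open Polynomial

namespace Pool.Agent.Lib.MP_7ab245_nt.House

/-- `G` is the Graeffe transform of `F`: its inverse roots are the squares of those of `F`. -/
def Gr (F G : ℤ[X]) : Prop :=
  ∃ E O : ℤ[X], F = expand ℤ 2 E + X * expand ℤ 2 O ∧ G = E ^ 2 - X * O ^ 2

lemma exists_even_odd (F : ℤ[X]) : ∃ E O : ℤ[X], F = expand ℤ 2 E + X * expand ℤ 2 O := by
  induction F using Polynomial.induction_on' with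
  | add p q hp hq =>
    obtain ⟨E, O, h⟩ := hp
    obtain ⟨E', O', h'⟩ := hq
    exact ⟨E + E', O + O', by rw [h, h', map_add, map_add]; ring⟩
  | monomial n a =>
    rcases Nat.even_or_odd' n with ⟨k, rfl | rfl⟩
    · refine ⟨monomial k a, 0, ?_⟩
      rw [expand_monomial, map_zero, mul_zero, add_zero, mul_comm]
    · refine ⟨0, monomial k a, ?_⟩
      rw [expand_monomial, map_zero, zero_add, X_mul_monomial, mul_comm]

lemma gr_exists (F : ℤ[X]) : ∃ G, Gr F G := by
  obtain ⟨E, O, h⟩ := exists_even_odd F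
  exact ⟨_, E, O, h, rfl⟩

lemma gr_expand {F G : ℤ[X]} (h : Gr F G) : expand ℤ 2 G = F * F.comp (-X) := by
  obtain ⟨E, O, hF, hG⟩ := h
  have h1 : ∀ P : ℤ[X], (expand ℤ 2 P).comp (-X) = expand ℤ 2 P := by
    intro P
    rw [expand_eq_comp_X_pow, comp_assoc]
    congr 1
    simp
  rw [hG, hF, map_sub, map_mul, map_pow, map_pow, expand_X, add_comp, mul_comp, h1, h1, X_comp]
  ring

lemma gr_mod_two {F G : ℤ[X]} (h : Gr F G) : ∃ w : ℤ[X], G = F + C 2 * w := by
  obtain ⟨E, O, hF, hG⟩ := h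
  have hdiv : C (2 : ℤ) ∣ G - F := by
    rw [C_dvd_iff_dvd_coeff]
    intro i
    have h1 : ((G - F).map (Int.castRingHom (ZMod 2))).coeff i = 0 := by
      have h2 : (G - F).map (Int.castRingHom (ZMod 2)) = 0 := by
        rw [Polynomial.map_sub, hF, hG]
        simp only [Polynomial.map_sub, Polynomial.map_add, Polynomial.map_mul, Polynomial.map_pow,
          map_X, map_expand]
        rw [ZMod.expand_card, ZMod.expand_card]
        have : ∀ x : (ZMod 2)[X], x - x = x + x := by
          intro x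
          have h3 : (2 : (ZMod 2)[X]) = 0 := by
            have : ((2 : ℕ) : (ZMod 2)[X]) = 0 := CharP.cast_eq_zero _ 2
            exact_mod_cast this
          have : x + x = 2 * x := by ring
          rw [this, h3, zero_mul, sub_self]
        set e := (E.map (Int.castRingHom (ZMod 2))) ^ 2
        set o := X * (O.map (Int.castRingHom (ZMod 2))) ^ 2
        have h4 : e - o - (e + o) = -(o + o) := by ring
        rw [h4, ← this, sub_self, neg_zero]
      rw [h2]; simp
    rw [coeff_map] at h1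
    exact (ZMod.intCast_zmod_eq_zero_iff_dvd _ _).mp (by simpa using h1)
  obtain ⟨w, hw⟩ := hdiv
  exact ⟨w, by rw [← hw]; ring⟩

lemma gr_pair (F1 : ℤ[X]) : ∃ F2 F4 T : ℤ[X], Gr F1 F2 ∧ Gr F2 F4 ∧ F4 = F2 + C 4 * T := by
  obtain ⟨E, O, h⟩ := exists_even_odd F1
  have hgr : Gr F1 (E ^ 2 - X * O ^ 2) := ⟨E, O, h, rfl⟩
  obtain ⟨w, hw⟩ := gr_mod_two hgr
  obtain ⟨a, b, hab⟩ := exists_even_odd w
  refine ⟨E ^ 2 - X * O ^ 2, (E + C 2 * a) ^ 2 - X * (O + C 2 * b) ^ 2,
    E * a + a ^ 2 - X * (O * b + b ^ 2), hgr, ⟨E + C 2 * a, O + C 2 * b, ?_, rfl⟩, ?_⟩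
  · rw [hw, hab, h, map_add, map_add, map_mul, map_mul, expand_C]
    ring
  · have h4 : (C (4 : ℤ) : ℤ[X]) = C 2 * C 2 := by rw [← C_mul]; norm_num
    have h2 : (C (2 : ℤ) : ℤ[X]) = 2 := by simp
    rw [h4, h2]
    ring

lemma gr_coeff_zero {F G : ℤ[X]} (h : Gr F G) : G.coeff 0 = F.coeff 0 ^ 2 := by
  obtain ⟨E, O, hF, hG⟩ := h
  rw [hG, hF, coeff_zero_eq_eval_zero, coeff_zero_eq_eval_zero]
  simp [expand_eval]

lemma gr_map {F G : ℤ[X]} (h : Gr F G) (s : Multiset ℂ)
    (hF : F.map (Int.castRingHom ℂ) = (s.map fun a => 1 - C a * X).prod) :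
    G.map (Int.castRingHom ℂ) = (s.map fun a => 1 - C (a ^ 2) * X).prod := by
  have h1 := congrArg (Polynomial.map (Int.castRingHom ℂ)) (gr_expand h)
  rw [map_expand, Polynomial.map_mul, Polynomial.map_comp, Polynomial.map_neg, map_X, hF] at h1
  apply expand_injective (n := 2) (by norm_num)
  rw [h1]
  clear h1 hF
  induction s using Multiset.induction_on with
  | empty => simp
  | cons a s ih =>
    rw [Multiset.map_cons, Multiset.prod_cons, Multiset.map_cons, Multiset.prod_cons, mul_comp,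
      map_mul, ← ih]
    have : expand ℂ 2 (1 - C (a ^ 2) * X) = (1 - C a * X) * (1 - C a * X).comp (-X) := by
      rw [map_sub, map_one, map_mul, expand_C, expand_X, sub_comp, one_comp, mul_comp, C_comp,
        X_comp, C_pow]
      ring
    rw [this]
    ring

/-- the square root of `F2 * F4` has integer coefficients -/
lemma exists_sqrt (G T : ℤ[X]) (hG : G.coeff 0 = 1) (hT : T.coeff 0 = 0) :
    ∃ v : PowerSeries ℤ, PowerSeries.constantCoeff v = 1 ∧
      v ^ 2 = ((G * (G + C 4 * T) : ℤ[X]) : PowerSeries ℤ) := by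
  set R := PowerSeries ℤ
  set g : R := (G : PowerSeries ℤ) with hg
  set t : R := (T : PowerSeries ℤ) with ht
  set I : Ideal R := Ideal.span {(PowerSeries.X : R)}
  have hens : HenselianRing R I := inferInstance
  have hg0 : PowerSeries.constantCoeff g = 1 := by
    rw [← PowerSeries.coeff_zero_eq_constantCoeff_apply, hg, Polynomial.coeff_coe, hG]
  have ht0 : PowerSeries.constantCoeff t = 0 := by
    rw [← PowerSeries.coeff_zero_eq_constantCoeff_apply, ht, Polynomial.coeff_coe, hT]
  let P : Polynomial R := X ^ 2 + (C g * X - C (g * t))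
  have hPm : P.Monic := by
    apply monic_X_pow_add
    refine lt_of_le_of_lt (degree_sub_le _ _) ?_
    rw [max_lt_iff]
    constructor
    · refine lt_of_le_of_lt (degree_C_mul_X_le g) ?_
      exact_mod_cast (by norm_num : (1 : ℕ) < 2)
    · refine lt_of_le_of_lt degree_C_le ?_
      exact_mod_cast (by norm_num : (0 : ℕ) < 2)
  have hP0 : P.eval 0 ∈ I := by
    simp only [P, eval_add, eval_pow, eval_X, eval_sub, eval_mul, eval_C, mul_zero, zero_sub]
    rw [Ideal.mem_span_singleton, PowerSeries.X_dvd_iff]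
    simp [ht0]
  have hP1 : IsUnit (Ideal.Quotient.mk I (P.derivative.eval 0)) := by
    have : P.derivative.eval 0 = g := by
      simp [P]
    rw [this]
    apply IsUnit.map
    rw [PowerSeries.isUnit_iff_constantCoeff, hg0]
    exact isUnit_one
  obtain ⟨w, hw, hwI⟩ := hens.is_henselian P hPm 0 hP0 hP1
  rw [sub_zero, Ideal.mem_span_singleton, PowerSeries.X_dvd_iff] at hwI
  refine ⟨g + 2 * w, ?_, ?_⟩
  · rw [map_add, map_mul, hwI, hg0]; simp
  · rw [IsRoot.def] at hw
    simp only [P, eval_add, eval_pow, eval_X, eval_sub, eval_mul, eval_C] at hw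
    have h4 : ((C (4 : ℤ) : ℤ[X]) : PowerSeries ℤ) = 4 := by
      rw [Polynomial.coe_C]; rfl
    rw [Polynomial.coe_mul, Polynomial.coe_add, Polynomial.coe_mul, h4, ← hg, ← ht]
    have hw' : w ^ 2 + g * w = g * t := by
      have : w ^ 2 + (g * w - g * t) = 0 := hw
      linear_combination this
    linear_combination 4 * hw'

end Pool.Agent.Lib.MP_7ab245_nt.House
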