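import Mathlib
import Pool.Agent.Lib.MP_7ab245_nt.House.Kron
import Pool.Agent.Lib.MP_7ab245_nt.House.HankelBound
import Pool.Agent.Lib.MP_7ab245_nt.House.Graeffe
import Pool.Agent.Lib.MP_7ab245_nt.House.Ident
import Pool.Agent.Lib.MP_7ab245_nt.House.Capacity

/-! If the branch points are close to the unit disc then `F₂ F₄` is a square. -/

set_option autoImplicit false

open Polynomial Metric Complex

open scoped Real

namespace Pool.Agent.Lib.MP_7ab245_nt.House

lemma norm_le_exp_posLog (z : ℂ) : ‖z‖ ≤ Real.exp (Real.posLog ‖z‖) := by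
  rcases eq_or_ne z 0 with rfl | hz
  · simp only [norm_zero]; exact (Real.exp_pos _).le
  · have h : 0 < ‖z‖ := norm_pos_iff.mpr hz
    calc ‖z‖ = Real.exp (Real.log ‖z‖) := (Real.exp_log h).symm
      _ ≤ _ := Real.exp_le_exp.mpr (by rw [Real.posLog_apply]; exact le_max_right _ _)

lemma det_int (v : PowerSeries ℤ) (m : ℕ) :
    ∃ d : ℤ, (hankel (v.map (Int.castRingHom ℂ)) m).det = (d : ℂ) := by
  refine ⟨(Matrix.of fun i j : Fin m => PowerSeries.coeff ((i : ℕ) + j + 1) v).det, ?_⟩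
  have h : hankel (v.map (Int.castRingHom ℂ)) m =
      (Int.castRingHom ℂ).mapMatrix
        (Matrix.of fun i j : Fin m => PowerSeries.coeff ((i : ℕ) + j + 1) v) := by
    ext i j
    simp [hankel, PowerSeries.coeff_map]
  rw [h, ← RingHom.map_det]
  rfl

theorem square_of_small (n : ℕ) (hn : 0 < n) (α : Fin n → ℂ) (F1 : ℤ[X])
    (hF0 : F1.coeff 0 = 1)
    (hF : F1.map (Int.castRingHom ℂ) = ∏ i, (1 - C (α i) * X))
    (hsmall : n * ∑ i, (Real.posLog ‖α i‖) ^ 2 < 1 / 640) :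
    ∃ a b : ℂ[X], a ≠ 0 ∧
      a ^ 2 * ((∏ i, (1 - C (α i ^ 2) * X)) * ∏ i, (1 - C (α i ^ 4) * X)) = b ^ 2 := by
  classical
  obtain ⟨F2, F4, T, hG1, hG2, hF4⟩ := gr_pair F1
  have hnR : (0 : ℝ) < n := by exact_mod_cast hn
  -- the images over ℂ
  have hm1 : F1.map (Int.castRingHom ℂ) =
      ((Finset.univ.val.map α).map fun a => 1 - C a * X).prod := by
    rw [hF, Multiset.map_map]; rfl
  have hm2 := gr_map hG1 _ hm1
  have hm2' : F2.map (Int.castRingHom ℂ) =
      ((Finset.univ.val.map fun i => α i ^ 2).map fun a => 1 - C a * X).prod := by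
    rw [hm2, Multiset.map_map, Multiset.map_map]; rfl
  have hm4 := gr_map hG2 _ hm2'
  have e2 : F2.map (Int.castRingHom ℂ) = ∏ i, (1 - C (α i ^ 2) * X) := by
    rw [hm2', Multiset.map_map]; rfl
  have e4 : F4.map (Int.castRingHom ℂ) = ∏ i, (1 - C (α i ^ 4) * X) := by
    rw [hm4, Multiset.map_map]
    have : ∀ i, (α i ^ 2) ^ 2 = α i ^ 4 := fun i => by ring
    simp only [Function.comp_def, this]
    rfl
  have hF20 : F2.coeff 0 = 1 := by rw [gr_coeff_zero hG1, hF0]; norm_num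
  have hF40 : F4.coeff 0 = 1 := by rw [gr_coeff_zero hG2, hF20]; norm_num
  have hT0 : T.coeff 0 = 0 := by
    rw [hF4, coeff_add, coeff_C_mul, hF20] at hF40
    linarith
  obtain ⟨v, hv0, hv⟩ := exists_sqrt F2 T hF20 hT0
  rw [← hF4] at hv
  set vC : PowerSeries ℂ := v.map (Int.castRingHom ℂ) with hvC
  have hvC0 : PowerSeries.constantCoeff vC = 1 := by
    rw [hvC, ← PowerSeries.coeff_zero_eq_constantCoeff_apply, PowerSeries.coeff_map,
      PowerSeries.coeff_zero_eq_constantCoeff_apply, hv0]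
    simp
  set b : Fin n ⊕ Fin n → ℂ := Sum.elim (fun i => α i ^ 2) (fun i => α i ^ 4) with hb
  have hprodb : ∏ j, (1 - C (b j) * X : ℂ[X]) =
      (∏ i, (1 - C (α i ^ 2) * X)) * ∏ i, (1 - C (α i ^ 4) * X) := by
    rw [Fintype.prod_sum_type]; rfl
  have hvC2 : vC ^ 2 = ((∏ j, (1 - C (b j) * X) : ℂ[X]) : PowerSeries ℂ) := by
    rw [hprodb, ← e2, ← e4, ← Polynomial.map_mul, Polynomial.polynomial_map_coe, ← hv, map_pow]
  set τ : Fin n ⊕ Fin n → ℝ :=
    Sum.elim (fun i => 2 * Real.posLog ‖α i‖) (fun i => 4 * Real.posLog ‖α i‖) with hτ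
  have hτ0 : ∀ j, 0 ≤ τ j := by
    rintro (i | i)
    · simp only [hτ, Sum.elim_inl]
      have := Real.posLog_nonneg (x := ‖α i‖)
      positivity
    · simp only [hτ, Sum.elim_inr]
      have := Real.posLog_nonneg (x := ‖α i‖)
      positivity
  have hτb : ∀ j, ‖b j‖ ≤ Real.exp (τ j) := by
    rintro (i | i)
    · simp only [hτ, hb, Sum.elim_inl]
      refine (norm_le_exp_posLog _).trans (le_of_eq ?_)
      rw [norm_pow, Real.posLog_pow]; norm_num
    · simp only [hτ, hb, Sum.elim_inr]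
      refine (norm_le_exp_posLog _).trans (le_of_eq ?_)
      rw [norm_pow, Real.posLog_pow]; norm_num
  have hcard : Fintype.card (Fin n ⊕ Fin n) = 2 * n := by
    rw [Fintype.card_sum, Fintype.card_fin]; ring
  have hsum : ∑ j, τ j ^ 2 < 1 / (16 * (Fintype.card (Fin n ⊕ Fin n) : ℝ)) := by
    rw [hcard, Fintype.sum_sum_type]
    simp only [hτ, Sum.elim_inl, Sum.elim_inr]
    have h1 : ∑ i, (2 * Real.posLog ‖α i‖) ^ 2 + ∑ i, (4 * Real.posLog ‖α i‖) ^ 2 =
        20 * ∑ i, (Real.posLog ‖α i‖) ^ 2 := by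
      rw [← Finset.sum_add_distrib, Finset.mul_sum]
      refine Finset.sum_congr rfl fun i _ => ?_
      ring
    rw [h1, lt_div_iff₀ (by push_cast; positivity)]
    push_cast
    linarith
  obtain ⟨U, R, q, P, hU, hKU, hUR, hq0, hq1, hPm, hPd, hPb⟩ :=
    capacity b τ hτ0 hτb (by rw [hcard]; omega) hsum
  obtain ⟨Cc, hC0, hCb⟩ := functional_bound b vC hvC0 hvC2 U hU hKU R hUR
  obtain ⟨m0, hm0⟩ := eventually_lt_one Cc 3 q hC0 (by norm_num) hq0 hq1
  have hdet : ∀ m, m0 ≤ m → (hankel vC m).det = 0 := by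
    intro m hm
    have h1 := norm_det_hankel_le vC m P hPm hPd Cc (fun i => 3 * ((i : ℝ) + 1) * q ^ i)
      (fun i => by positivity) (by
        intro i j
        apply hCb _ _ (by positivity)
        intro z hz
        rw [eval_mul, norm_mul]
        exact mul_le_mul (hPb i z hz) (hPb j z hz) (norm_nonneg _) (by positivity))
    have h2 := lt_of_le_of_lt h1 (hm0 m hm)
    obtain ⟨d, hd⟩ := det_int v m
    rw [← hvC] at hd
    rw [hd, Complex.norm_intCast] at h2
    have h3 : |d| < 1 := by exact_mod_cast h2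
    rw [hd, Int.abs_lt_one_iff.mp h3, Int.cast_zero]
  obtain ⟨a, c, ha, hac⟩ := kronecker vC m0 hdet
  refine ⟨a, c, ha, ?_⟩
  rw [← hprodb]
  have h1 : ((a ^ 2 * ∏ j, (1 - C (b j) * X) : ℂ[X]) : PowerSeries ℂ) =
      ((c ^ 2 : ℂ[X]) : PowerSeries ℂ) := by
    rw [Polynomial.coe_mul, Polynomial.coe_pow, Polynomial.coe_pow, ← hac, ← hvC2]
    ring
  exact Polynomial.coe_injective ℂ h1

end Pool.Agent.Lib.MP_7ab245_nt.House
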