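import Mathlib
import Pool.Agent.Lib.MP_7ab245_nt.House.Graeffe
import Pool.Agent.Lib.MP_7ab245_nt.House.Square

/-! The quadratic energy of the roots outside the unit disc. -/

set_option autoImplicit false

open Polynomial

namespace Pool.Agent.Lib.MP_7ab245_nt.House

lemma exists_enum (s : Multiset ℂ) :
    ∃ α : Fin (Multiset.card s) → ℂ, Finset.univ.val.map α = s := by
  induction s using Quotient.inductionOn with
  | h l =>
    refine ⟨fun i => l.get i, ?_⟩
    have := Fin.univ_val_map (fun i : Fin l.length => l.get i)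
    rw [List.ofFn_get] at this
    exact this

lemma roots_one_sub (b : ℂ) (hb : b ≠ 0) : (1 - C b * X : ℂ[X]).roots = {b⁻¹} := by
  have : (1 - C b * X : ℂ[X]) = C (-b) * X - C (-1) := by simp; ring
  rw [this, roots_C_mul_X_sub_C _ (neg_ne_zero.mpr hb)]
  congr 1
  rw [inv_neg]; ring

lemma one_sub_ne_zero (b : ℂ) : (1 - C b * X : ℂ[X]) ≠ 0 := by
  intro h
  have := congrArg (eval 0) h
  simp at this

lemma roots_prod_one_sub (n : ℕ) (β : Fin n → ℂ) (hβ : ∀ i, β i ≠ 0) :
    (∏ i, (1 - C (β i) * X) : ℂ[X]).roots = Finset.univ.val.map fun i => (β i)⁻¹ := by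
  rw [roots_prod _ _ (Finset.prod_ne_zero_iff.mpr fun i _ => one_sub_ne_zero _)]
  simp only [roots_one_sub _ (hβ _)]
  exact Multiset.bind_singleton _ _

lemma no_square (n : ℕ) (α : Fin n → ℂ) (hα0 : ∀ i, α i ≠ 0)
    (hinj : Function.Injective fun i => α i ^ 2) (a b : ℂ[X]) (ha : a ≠ 0)
    (h : a ^ 2 * ((∏ i, (1 - C (α i ^ 2) * X)) * ∏ i, (1 - C (α i ^ 4) * X)) = b ^ 2) :
    ∀ i, Real.posLog ‖α i‖ = 0 := by
  classical
  have hr2 := roots_prod_one_sub n (fun i => α i ^ 2) (fun i => pow_ne_zero _ (hα0 i))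
  have hr4 := roots_prod_one_sub n (fun i => α i ^ 4) (fun i => pow_ne_zero _ (hα0 i))
  have hne2 : (∏ i, (1 - C (α i ^ 2) * X) : ℂ[X]) ≠ 0 :=
    Finset.prod_ne_zero_iff.mpr fun i _ => one_sub_ne_zero _
  have hne4 : (∏ i, (1 - C (α i ^ 4) * X) : ℂ[X]) ≠ 0 :=
    Finset.prod_ne_zero_iff.mpr fun i _ => one_sub_ne_zero _
  have hroots := congrArg roots h
  rw [roots_mul (mul_ne_zero (pow_ne_zero _ ha) (mul_ne_zero hne2 hne4)),
    roots_mul (mul_ne_zero hne2 hne4), roots_pow, roots_pow, hr2, hr4] at hroots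
  have hex : ∀ k, ∃ j, α j ^ 4 = α k ^ 2 := by
    intro k
    have hc := congrArg (Multiset.count ((α k ^ 2)⁻¹)) hroots
    rw [Multiset.count_add, Multiset.count_add, Multiset.count_nsmul, Multiset.count_nsmul] at hc
    have h1 : Multiset.count ((α k ^ 2)⁻¹)
        (Multiset.map (fun i => (α i ^ 2)⁻¹) Finset.univ.val) = 1 := by
      apply Multiset.count_eq_one_of_mem
      · apply Multiset.Nodup.map _ Finset.univ.nodup
        intro i j hij
        exact hinj (inv_injective hij)
      · exact Multiset.mem_map_of_mem _ (Finset.mem_univ k)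
    rw [h1] at hc
    have h2 : 0 < Multiset.count ((α k ^ 2)⁻¹)
        (Multiset.map (fun i => (α i ^ 4)⁻¹) Finset.univ.val) := by
      omega
    rw [Multiset.count_pos, Multiset.mem_map] at h2
    obtain ⟨j, _, hj⟩ := h2
    exact ⟨j, inv_injective hj⟩
  choose J hJ using hex
  have hJinj : Function.Injective J := by
    intro k l hkl
    apply hinj
    change α k ^ 2 = α l ^ 2
    rw [← hJ k, ← hJ l, hkl]
  have hJbij : Function.Bijective J := Finite.injective_iff_bijective.mp hJinj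
  have ht : ∀ k, 4 * Real.posLog ‖α (J k)‖ = 2 * Real.posLog ‖α k‖ := by
    intro k
    have h1 := congrArg (fun z : ℂ => Real.posLog ‖z‖) (hJ k)
    simp only [norm_pow, Real.posLog_pow] at h1
    exact_mod_cast h1
  have hsum : ∑ k, Real.posLog ‖α (J k)‖ = ∑ k, Real.posLog ‖α k‖ :=
    hJbij.sum_comp fun i => Real.posLog ‖α i‖
  have h2 : ∑ k, 4 * Real.posLog ‖α (J k)‖ = ∑ k, 2 * Real.posLog ‖α k‖ :=
    Finset.sum_congr rfl fun k _ => ht k
  rw [← Finset.mul_sum, ← Finset.mul_sum, hsum] at h2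
  have h3 : ∑ k, Real.posLog ‖α k‖ = 0 := by linarith
  intro i
  exact (Finset.sum_eq_zero_iff_of_nonneg fun _ _ => Real.posLog_nonneg).mp h3 i
    (Finset.mem_univ i)

/-- sum of the squares of the logarithms of the roots outside the unit disc -/
noncomputable def sumsq (f : ℤ[X]) : ℝ :=
  ((f.map (Int.castRingHom ℂ)).roots.map fun z => (Real.posLog ‖z‖) ^ 2).sum

lemma sum_map_nonneg (s : Multiset ℂ) : 0 ≤ (s.map fun z => (Real.posLog ‖z‖) ^ 2).sum := by
  apply Multiset.sum_nonneg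
  intro x hx
  rw [Multiset.mem_map] at hx
  obtain ⟨z, _, rfl⟩ := hx
  positivity

lemma map_monic_ne_zero {f : ℤ[X]} (hf : f.Monic) : f.map (Int.castRingHom ℂ) ≠ 0 :=
  (hf.map _).ne_zero

lemma sumsq_mul {g h : ℤ[X]} (hg : g.Monic) (hh : h.Monic) :
    sumsq (g * h) = sumsq g + sumsq h := by
  unfold sumsq
  rw [Polynomial.map_mul, roots_mul (mul_ne_zero (map_monic_ne_zero hg) (map_monic_ne_zero hh)),
    Multiset.map_add, Multiset.sum_add]

lemma sumsq_nonneg (f : ℤ[X]) : 0 ≤ sumsq f := sum_map_nonneg _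

lemma splits_eq {f : ℤ[X]} (hf : f.Monic) :
    f.map (Int.castRingHom ℂ) =
      ((f.map (Int.castRingHom ℂ)).roots.map fun a => X - C a).prod := by
  have h := (IsAlgClosed.splits (f.map (Int.castRingHom ℂ))).eq_prod_roots
  rw [(hf.map _).leadingCoeff, C_1, one_mul] at h
  exact h

lemma card_roots_eq {f : ℤ[X]} (_hf : f.Monic) :
    Multiset.card (f.map (Int.castRingHom ℂ)).roots = f.natDegree := by
  have h := (IsAlgClosed.splits (f.map (Int.castRingHom ℂ))).natDegree_eq_card_roots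
  rw [← h, natDegree_map_eq_of_injective (RingHom.injective_int _)]

lemma sumsq_expand {g : ℤ[X]} (hg : g.Monic) : 2 * sumsq (expand ℤ 2 g) = sumsq g := by
  classical
  have hex : ∀ β : ℂ, ∃ r : ℂ, r ^ 2 = β := fun β => IsAlgClosed.exists_pow_nat_eq β (by norm_num)
  choose r hr using hex
  set s := (g.map (Int.castRingHom ℂ)).roots with hs
  have h1 : (expand ℤ 2 g).map (Int.castRingHom ℂ) =
      ((s.map r + s.map fun z => -r z).map fun a => X - C a).prod := by
    rw [map_expand, splits_eq hg, ← hs, Multiset.map_add, Multiset.prod_add, Multiset.map_map,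
      Multiset.map_map, ← Multiset.prod_map_mul, map_multiset_prod, Multiset.map_map]
    congr 1
    apply Multiset.map_congr rfl
    intro z _
    simp only [Function.comp_def, map_sub, expand_X, expand_C, C_neg]
    have : C z = C (r z) ^ 2 := by rw [← C_pow, hr]
    rw [this]
    ring
  unfold sumsq
  rw [h1, roots_multiset_prod_X_sub_C, Multiset.map_add, Multiset.sum_add, Multiset.map_map,
    Multiset.map_map, ← hs]
  have h2 : ∀ z : ℂ, Real.posLog ‖z‖ = 2 * Real.posLog ‖r z‖ := by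
    intro z
    conv_lhs => rw [← hr z, norm_pow, Real.posLog_pow]
    norm_num
  have h3 : (fun z : ℂ => (Real.posLog ‖z‖) ^ 2) ∘ r =
      fun z => (1 / 4 : ℝ) * (Real.posLog ‖z‖) ^ 2 := by
    funext z
    simp only [Function.comp_apply]
    rw [h2 z]; ring
  have h4 : ((fun z : ℂ => (Real.posLog ‖z‖) ^ 2) ∘ fun z => -r z) =
      fun z => (1 / 4 : ℝ) * (Real.posLog ‖z‖) ^ 2 := by
    funext z
    simp only [Function.comp_apply, norm_neg]
    rw [h2 z]; ring
  rw [h3, h4, Multiset.sum_map_mul_left]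
  ring

end Pool.Agent.Lib.MP_7ab245_nt.House
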