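import Mathlib
import Pool.Agent.Lib.MP_7ab245_nt.House.Energy

/-! The lower bound for the quadratic energy. -/

set_option autoImplicit false

open Polynomial

namespace Pool.Agent.Lib.MP_7ab245_nt.House

lemma reverse_X_sub_C (a : ℂ) : (X - C a : ℂ[X]).reverse = 1 - C a * X := by
  have h : (X - C a : ℂ[X]) = 1 * X + C (-a) := by rw [one_mul, C_neg, sub_eq_add_neg]
  rw [h, reverse_add_C, reverse_mul_X, C_neg, ← C_1, reverse_C, natDegree_C_mul_X _ one_ne_zero,
    C_1]
  ring

lemma reverse_prod_X_sub_C (s : Multiset ℂ) :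
    ((s.map fun a => X - C a).prod).reverse = (s.map fun a => 1 - C a * X).prod := by
  induction s using Multiset.induction_on with
  | empty =>
    rw [Multiset.map_zero, Multiset.prod_zero, Multiset.map_zero, Multiset.prod_zero, ← C_1,
      reverse_C]
  | cons a s ih =>
    rw [Multiset.map_cons, Multiset.prod_cons, reverse_mul_of_domain, ih, reverse_X_sub_C,
      Multiset.map_cons, Multiset.prod_cons]

lemma reverse_map_eq {f : ℤ[X]} (hf : f.Monic) :
    f.reverse.map (Int.castRingHom ℂ) =
      ((f.map (Int.castRingHom ℂ)).roots.map fun a => 1 - C a * X).prod := by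
  have h1 : f.reverse.map (Int.castRingHom ℂ) = (f.map (Int.castRingHom ℂ)).reverse := by
    rw [reverse, reverse, natDegree_map_eq_of_injective (RingHom.injective_int _), reflect_map]
  rw [h1]
  conv_lhs => rw [splits_eq hf]
  exact reverse_prod_X_sub_C _

/-- the case of distinct squares -/
lemma energy_of_injective {f : ℤ[X]} (hf : f.Monic) (hf0 : f.coeff 0 ≠ 0)
    (hinj : ((f.map (Int.castRingHom ℂ)).roots.map fun a => a ^ 2).Nodup)
    (a : ℂ) (ha : a ∈ (f.map (Int.castRingHom ℂ)).roots) (ha1 : 1 < ‖a‖) :
    1 / 640 ≤ f.natDegree * sumsq f := by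
  by_contra hlt
  push Not at hlt
  set s := (f.map (Int.castRingHom ℂ)).roots with hs
  have hcard : Multiset.card s = f.natDegree := card_roots_eq hf
  have hpos : 0 < Multiset.card s := Multiset.card_pos_iff_exists_mem.mpr ⟨a, ha⟩
  obtain ⟨α, hα⟩ := exists_enum s
  have hrev := reverse_map_eq hf
  rw [← hs, ← hα, Multiset.map_map] at hrev
  have hmem : ∀ i, α i ∈ s := fun i => by
    rw [← hα]
    exact Multiset.mem_map_of_mem _ (Finset.mem_univ_val i)
  have hα0 : ∀ i, α i ≠ 0 := by
    intro i h0
    have h1 := hmem i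
    rw [hs, mem_roots (map_monic_ne_zero hf), IsRoot.def, h0, ← coeff_zero_eq_eval_zero,
      coeff_map] at h1
    apply hf0
    simpa using h1
  obtain ⟨p, q, hp, hpq⟩ := square_of_small (Multiset.card s) hpos α f.reverse
    (by rw [coeff_zero_reverse]; exact hf)
    hrev (by
      have : sumsq f = ∑ i, (Real.posLog ‖α i‖) ^ 2 := by
        have h2 : sumsq f =
            ((Finset.univ.val.map α).map fun z => (Real.posLog ‖z‖) ^ 2).sum := by
          rw [hα]; rfl
        rw [h2, Multiset.map_map]
        rfl
      rw [← this, hcard]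
      exact hlt)
  have hinj' : Function.Injective fun i => α i ^ 2 := by
    rw [← hα, Multiset.map_map] at hinj
    have := (Multiset.nodup_map_iff_inj_on Finset.univ.nodup).mp hinj
    intro i j hij
    exact this i (Finset.mem_univ_val i) j (Finset.mem_univ_val j) hij
  have h0 := no_square _ α hα0 hinj' p q hp hpq
  rw [← hα, Multiset.mem_map] at ha
  obtain ⟨i, _, hi⟩ := ha
  have h1 := h0 i
  rw [hi, Real.posLog_eq_zero_iff, abs_of_nonneg (norm_nonneg _)] at h1
  linarith

lemma minpoly_eq {f : ℤ[X]} (hf : f.Monic) (hirr : Irreducible f) (a : ℂ)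
    (ha : aeval a f = 0) : minpoly ℤ a = f := by
  have hint : IsIntegral ℤ a := ⟨f, hf, ha⟩
  have hdvd := minpoly.isIntegrallyClosed_dvd hint ha
  obtain ⟨c, hc⟩ := hdvd
  have hm := minpoly.monic hint
  have hnu : ¬ IsUnit (minpoly ℤ a) := minpoly.not_isUnit ℤ a
  have hcu : IsUnit c := by
    rcases hirr.isUnit_or_isUnit hc with h | h
    · exact absurd h hnu
    · exact h
  have hcm : c.Monic := by
    have h1 := hf
    rw [hc] at h1
    exact hm.of_mul_monic_left h1
  rw [hcm.eq_one_of_isUnit hcu, mul_one] at hc
  exact hc.symm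

lemma expand_of_neg_root {f : ℤ[X]} (hf : f.Monic) (hirr : Irreducible f) (hf0 : f.coeff 0 ≠ 0)
    (a : ℂ) (ha : aeval a f = 0) (ha' : aeval (-a) f = 0) :
    ∃ g : ℤ[X], g.Monic ∧ f = expand ℤ 2 g := by
  have hint : IsIntegral ℤ a := ⟨f, hf, ha⟩
  have h1 : aeval a (f.comp (-X)) = 0 := by
    rw [aeval_comp, map_neg, aeval_X, ha']
  have h2 := minpoly.isIntegrallyClosed_dvd hint h1
  rw [minpoly_eq hf hirr a ha] at h2
  obtain ⟨c, hc⟩ := h2
  have hfne : f ≠ 0 := hf.ne_zero
  have hdeg : (f.comp (-X)).natDegree = f.natDegree := by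
    rw [natDegree_comp, natDegree_neg, natDegree_X, mul_one]
  have hcomp : f.comp (-X) ≠ 0 := by
    intro h
    have h3 : (f.comp (-X)).comp (-X) = f := by
      rw [comp_assoc]; simp
    rw [h, zero_comp] at h3
    exact hfne h3.symm
  have hcne : c ≠ 0 := by
    rintro rfl
    rw [mul_zero] at hc
    exact hcomp hc
  have hcdeg : c.natDegree = 0 := by
    have := congrArg natDegree hc
    rw [hdeg, natDegree_mul hfne hcne] at this
    omega
  obtain ⟨c0, hc0⟩ := natDegree_eq_zero.mp hcdeg
  -- evaluate at the constant coefficient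
  have hcoef := congrArg (fun p => coeff p 0) hc
  rw [← hc0, mul_comm, coeff_C_mul, coeff_zero_eq_eval_zero (f.comp (-X)), eval_comp, eval_neg,
    eval_X, neg_zero, ← coeff_zero_eq_eval_zero] at hcoef
  have hc1 : c0 = 1 := by
    have : (c0 - 1) * f.coeff 0 = 0 := by linear_combination -hcoef
    rcases mul_eq_zero.mp this with h | h
    · linarith
    · exact absurd h hf0
  rw [← hc0, hc1, C_1, mul_one] at hc
  obtain ⟨E, O, hEO⟩ := exists_even_odd f
  have hE : ∀ P : ℤ[X], (expand ℤ 2 P).comp (-X) = expand ℤ 2 P := by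
    intro P
    rw [expand_eq_comp_X_pow, comp_assoc]
    congr 1
    simp
  have h3 : X * expand ℤ 2 O = 0 := by
    have h4 : f.comp (-X) = expand ℤ 2 E - X * expand ℤ 2 O := by
      rw [hEO, add_comp, mul_comp, hE, hE, X_comp]; ring
    rw [h4, hEO] at hc
    have h5 : 2 * (X * expand ℤ 2 O) = 0 := by linear_combination -hc
    rcases mul_eq_zero.mp h5 with h | h
    · exact absurd h two_ne_zero
    · exact h
  rw [h3, add_zero] at hEO
  refine ⟨E, ?_, hEO⟩
  rw [hEO] at hf
  exact (monic_expand_iff (by norm_num : 0 < 2)).mp hf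

theorem energy_bound (n : ℕ) : ∀ f : ℤ[X], f.natDegree = n → f.Monic →
    (∃ a ∈ (f.map (Int.castRingHom ℂ)).roots, 1 < ‖a‖) → 1 / 640 ≤ f.natDegree * sumsq f := by
  induction n using Nat.strong_induction_on with
  | _ n ih =>
    rintro f hfn hf ⟨a, ha, ha1⟩
    have hf1 : f ≠ 1 := by
      rintro rfl
      simp at ha
    by_cases hirr : Irreducible f
    · by_cases hf0 : f.coeff 0 = 0
      · -- the polynomial X
        exfalso
        have hX : X ∣ f := X_dvd_iff.mpr hf0
        obtain ⟨c, hc⟩ := hX
        have hcu : IsUnit c := by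
          rcases hirr.isUnit_or_isUnit hc with h | h
          · exact absurd h not_isUnit_X
          · exact h
        have hcm : c.Monic := by
          have h1 := hf
          rw [hc] at h1
          exact monic_X.of_mul_monic_left h1
        rw [hcm.eq_one_of_isUnit hcu, mul_one] at hc
        rw [hc, map_X, roots_X, Multiset.mem_singleton] at ha
        rw [ha, norm_zero] at ha1
        linarith
      by_cases hnd : ((f.map (Int.castRingHom ℂ)).roots.map fun a => a ^ 2).Nodup
      · exact energy_of_injective hf hf0 hnd a ha ha1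
      · -- two roots with the same square
        have hsep : (f.map (Int.castRingHom ℂ)).Separable := by
          have h1 : Irreducible (f.map (algebraMap ℤ ℚ)) :=
            (hf.irreducible_iff_irreducible_map_fraction_map).mp hirr
          have h2 := h1.separable
          have h3 := h2.map (f := algebraMap ℚ ℂ)
          rw [Polynomial.map_map] at h3
          have : (algebraMap ℚ ℂ).comp (algebraMap ℤ ℚ) = Int.castRingHom ℂ := by
            ext; simp
          rwa [this] at h3
        have hnod : (f.map (Int.castRingHom ℂ)).roots.Nodup := nodup_roots hsep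
        rw [Multiset.nodup_map_iff_inj_on hnod] at hnd
        push Not at hnd
        obtain ⟨x, hx, y, hy, hxy, hne⟩ := hnd
        have hyx : y = -x := by
          rcases sq_eq_sq_iff_eq_or_eq_neg.mp hxy with h | h
          · exact absurd h hne
          · rw [h, neg_neg]
        have haev : ∀ z : ℂ, z ∈ (f.map (Int.castRingHom ℂ)).roots → aeval z f = 0 := by
          intro z hz
          rw [mem_roots (map_monic_ne_zero hf), IsRoot.def, eval_map] at hz
          exact hz
        obtain ⟨g, hg, hfg⟩ := expand_of_neg_root hf hirr hf0 x (haev x hx)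
          (by rw [← hyx]; exact haev y hy)
        have hgd : f.natDegree = g.natDegree * 2 := by rw [hfg, natDegree_expand]
        have hfpos : 0 < f.natDegree := by
          rw [← card_roots_eq hf]
          exact Multiset.card_pos_iff_exists_mem.mpr ⟨a, ha⟩
        have hga : a ^ 2 ∈ (g.map (Int.castRingHom ℂ)).roots := by
          rw [mem_roots (map_monic_ne_zero hg), IsRoot.def]
          rw [mem_roots (map_monic_ne_zero hf), IsRoot.def, hfg, map_expand, expand_eval] at ha
          exact ha
        have h1 := ih g.natDegree (by omega) g rfl hg ⟨a ^ 2, hga, by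
          rw [norm_pow]; exact one_lt_pow₀ ha1 two_ne_zero⟩
        have h2 := sumsq_expand hg
        rw [← hfg] at h2
        have h3 : (f.natDegree : ℝ) = g.natDegree * 2 := by exact_mod_cast hgd
        have h4 : (g.natDegree : ℝ) * 2 * sumsq f = g.natDegree * sumsq g := by
          rw [← h2]; ring
        rw [h3, h4]
        exact h1
    · -- reducible
      rw [hf.irreducible_iff_natDegree] at hirr
      push Not at hirr
      obtain ⟨g, h, hg, hh, hgh, hgd, hhd⟩ := hirr hf1
      have hdeg : f.natDegree = g.natDegree + h.natDegree := by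
        rw [← hgh, hg.natDegree_mul hh]
      have hsum : sumsq f = sumsq g + sumsq h := by rw [← hgh, sumsq_mul hg hh]
      have hroots : (f.map (Int.castRingHom ℂ)).roots =
          (g.map (Int.castRingHom ℂ)).roots + (h.map (Int.castRingHom ℂ)).roots := by
        rw [← hgh, Polynomial.map_mul,
          roots_mul (mul_ne_zero (map_monic_ne_zero hg) (map_monic_ne_zero hh))]
      have hg0 := sumsq_nonneg g
      have hh0 := sumsq_nonneg h
      have hcast : (f.natDegree : ℝ) = g.natDegree + h.natDegree := by exact_mod_cast hdeg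
      have hgR : (0 : ℝ) ≤ g.natDegree := Nat.cast_nonneg _
      have hhR : (0 : ℝ) ≤ h.natDegree := Nat.cast_nonneg _
      rw [hroots, Multiset.mem_add] at ha
      rw [hsum, hcast]
      rcases ha with ha | ha
      · have h1 := ih g.natDegree (by omega) g rfl hg ⟨a, ha, ha1⟩
        nlinarith [mul_nonneg hgR hh0, mul_nonneg hhR hg0, mul_nonneg hhR hh0]
      · have h1 := ih h.natDegree (by omega) h rfl hh ⟨a, ha, ha1⟩
        nlinarith [mul_nonneg hgR hh0, mul_nonneg hhR hg0, mul_nonneg hgR hg0]

end Pool.Agent.Lib.MP_7ab245_nt.House
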